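import Pool.Agent.J4H26.EQ.Path
import Pool.Agent.W184.Coef
import Pool.Agent.H306R2.EP

set_option autoImplicit false

/-! Coefficients of powers of truncated zeta sums; divisor function inequalities. -/

namespace Pool.Agent.J4H26.TI

open MeasureTheory Filter Topology Finset Pool.Agent.H306R2 Pool.Agent.W184 Pool.Agent.J4H26.EQ

/-- the coefficients of `(∑_{n ≤ N} n^{-s})^k` -/
noncomputable def cc (k N n : ℕ) : ℝ := (tr (dA 1) (N:ℝ) ^ k) n

lemma cc_nonneg (k N n : ℕ) : 0 ≤ cc k N n := tr_pow_nonneg zero_le_one _ k n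

lemma cc_le (k N n : ℕ) : cc k N n ≤ dd k n := by
  have h := tr_pow_le zero_le_one (N:ℝ) k n
  rw [mul_one] at h
  exact h

lemma cc_eq {k N n : ℕ} (h : n ≤ N) : cc k N n = dd k n := by
  unfold cc dd
  rw [tr_pow_eq _ _ _ n (by exact_mod_cast h), dA_pow, mul_one, dA_apply]

lemma DS_cc {k N : ℕ} (hN : 1 ≤ N) (s : ℂ) : DS (cc k N) (N ^ k) s = DS (dd 1) N s ^ k := by
  have h := (Dp_pow (tr (dA 1) (N:ℝ)) N (by exact_mod_cast hN) (fun n hn => tr_supp _ _ _ hn) s k).2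
  rw [DS_eq_Dp, DS_eq_Dp, Nat.cast_pow]
  have e1 : Dp (dd 1) (N:ℝ) s = Dp (tr (dA 1) (N:ℝ)) N s := by
    unfold Dp
    refine sum_congr rfl fun n hn => ?_
    rw [mem_Icc, Nat.floor_natCast] at hn
    rw [tr_apply, if_pos (by exact_mod_cast hn.2), dA_apply]
    unfold dd
    rw [Nat.cast_one]
  rw [e1]
  exact h

/-! ### submultiplicativity -/

lemma lc_add_le {κ : ℝ} (hκ : 1 ≤ κ) (a b : ℕ) : lc κ (a + b) ≤ lc κ a * lc κ b := by
  have h0 : 0 ≤ κ := by linarith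
  induction b with
  | zero => rw [add_zero, lc_zero, mul_one]
  | succ b ih =>
    rw [← add_assoc, lc_succ, lc_succ, ← mul_assoc]
    have hf : (κ + ((a + b : ℕ) : ℝ)) / (((a + b : ℕ) : ℝ) + 1) ≤ (κ + b) / ((b:ℝ) + 1) := by
      rw [div_le_div_iff₀ (by positivity) (by positivity)]
      push_cast
      have ha : (0:ℝ) ≤ a := Nat.cast_nonneg a
      nlinarith
    refine mul_le_mul ih hf (by positivity) ?_
    exact mul_nonneg (lc_nonneg h0 _) (lc_nonneg h0 _)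

lemma dv_mul_le {κ : ℝ} (hκ : 1 ≤ κ) (m n : ℕ) : dv κ (m * n) ≤ dv κ m * dv κ n := by
  have h0 : 0 ≤ κ := by linarith
  rcases eq_or_ne m 0 with hm | hm
  · subst hm; simp [dv]
  rcases eq_or_ne n 0 with hn | hn
  · subst hn; simp [dv]
  unfold dv
  rw [if_neg (mul_ne_zero hm hn), if_neg hm, if_neg hn, Nat.factorization_mul hm hn]
  set f := m.factorization
  set g := n.factorization
  have e0 : ∀ i ∈ f.support ∪ g.support, lc κ 0 = 1 := fun i _ => lc_zero κ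
  rw [Finsupp.prod_of_support_subset (f + g) (s := f.support ∪ g.support) Finsupp.support_add _ e0,
    Finsupp.prod_of_support_subset f (s := f.support ∪ g.support) subset_union_left _ e0,
    Finsupp.prod_of_support_subset g (s := f.support ∪ g.support) subset_union_right _ e0,
    ← prod_mul_distrib]
  refine prod_le_prod (fun i _ => lc_nonneg h0 _) fun i _ => ?_
  rw [Finsupp.add_apply]
  exact lc_add_le hκ _ _

lemma dd_mul_le {k : ℕ} (hk : 1 ≤ k) (m n : ℕ) : dd k (m * n) ≤ dd k m * dd k n :=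
  dv_mul_le (by exact_mod_cast hk) m n

lemma dd_sq_le (k n : ℕ) : dd k n ^ 2 ≤ dd (k ^ 2) n := by
  have h := dv_sq_le (κ := (k:ℝ)) (Nat.cast_nonneg k) n
  unfold dd
  push_cast
  exact h

lemma dd_four_le (k n : ℕ) : dd k n ^ 4 ≤ dd (k ^ 4) n := by
  have h1 := dd_sq_le k n
  have h2 := dd_sq_le (k ^ 2) n
  have h3 := pow_le_pow_left₀ (sq_nonneg _) h1 2
  rw [← pow_mul] at h3
  rw [show (k ^ 2) ^ 2 = k ^ 4 by ring] at h2
  exact h3.trans h2

lemma dd_one_apply {n : ℕ} (hn : n ≠ 0) : dd 1 n = 1 := by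
  rw [dd_eq, pow_one, ArithmeticFunction.zeta_apply, if_neg hn, Nat.cast_one]

/-- convolution step -/
lemma dd_succ (k n : ℕ) : dd (k + 1) n = ∑ x ∈ n.divisorsAntidiagonal, dd k x.1 * dd 1 x.2 := by
  rw [dd_zR, pow_succ, ArithmeticFunction.mul_apply]
  refine sum_congr rfl fun x _ => ?_
  rw [dd_zR, dd_zR, pow_one]

theorem sum_dd_le (K M : ℕ) (hM : 1 ≤ M) : ∑ n ∈ Icc 1 M, dd K n / n ≤ (1 + Real.log M) ^ K := by
  have hlog : 0 ≤ Real.log M := Real.log_nonneg (by exact_mod_cast hM)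
  induction K with
  | zero =>
    rw [pow_zero]
    have h1 : ∀ n ∈ Icc 1 M, n ≠ 1 → dd 0 n / n = 0 := by
      intro n hn hn1
      rw [dd_zR, pow_zero, ArithmeticFunction.one_apply_ne hn1, zero_div]
    rw [sum_eq_single_of_mem 1 (by rw [mem_Icc]; omega) h1, dd_zR, pow_zero]
    simp
  | succ K ih =>
    have h1 : ∀ n ∈ Icc 1 M, dd (K + 1) n / n ≤
        ∑ x ∈ (Icc 1 M ×ˢ Icc 1 M).filter (fun x => x.1 * x.2 = n), (dd K x.1 / x.1) * (1 / (x.2:ℝ)) := by
      intro n hn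
      rw [mem_Icc] at hn
      rw [dd_succ, sum_div]
      refine le_trans (sum_le_sum_of_subset_of_nonneg (t := (Icc 1 M ×ˢ Icc 1 M).filter (fun x => x.1 * x.2 = n)) ?_ ?_) ?_
      · intro x hx
        rw [Nat.mem_divisorsAntidiagonal] at hx
        rw [mem_filter, mem_product, mem_Icc, mem_Icc]
        have h1 : x.1 ≠ 0 := by rintro h; rw [h, zero_mul] at hx; omega
        have h2 : x.2 ≠ 0 := by rintro h; rw [h, mul_zero] at hx; omega
        have h3 : x.1 ≤ n := Nat.le_of_dvd (by omega) ⟨x.2, hx.1.symm⟩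
        have h4 : x.2 ≤ n := Nat.le_of_dvd (by omega) ⟨x.1, by rw [mul_comm]; exact hx.1.symm⟩
        exact ⟨⟨by omega, by omega⟩, hx.1⟩
      · intro x _ _
        exact div_nonneg (mul_nonneg (dd_nonneg _ _) (dd_nonneg _ _)) (Nat.cast_nonneg n)
      · refine sum_le_sum fun x hx => ?_
        rw [mem_filter, mem_product, mem_Icc, mem_Icc] at hx
        rw [dd_one_apply (by omega), ← hx.2]
        push_cast
        rw [mul_one, div_mul_div_comm, mul_one]
    calc ∑ n ∈ Icc 1 M, dd (K + 1) n / n ≤ ∑ n ∈ Icc 1 M,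
        ∑ x ∈ (Icc 1 M ×ˢ Icc 1 M).filter (fun x => x.1 * x.2 = n), (dd K x.1 / x.1) * (1 / (x.2:ℝ)) :=
          sum_le_sum h1
      _ = ∑ x ∈ (Icc 1 M ×ˢ Icc 1 M).filter (fun x => x.1 * x.2 ∈ Icc 1 M), (dd K x.1 / x.1) * (1 / (x.2:ℝ)) :=
          sum_fiberwise_eq_sum_filter _ _ _ _
      _ ≤ ∑ x ∈ Icc 1 M ×ˢ Icc 1 M, (dd K x.1 / x.1) * (1 / (x.2:ℝ)) :=
          sum_le_sum_of_subset_of_nonneg (filter_subset _ _) fun x _ _ =>
            mul_nonneg (div_nonneg (dd_nonneg _ _) (Nat.cast_nonneg _)) (by positivity)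
      _ = (∑ a ∈ Icc 1 M, dd K a / a) * ∑ b ∈ Icc 1 M, 1 / (b:ℝ) := by
          rw [sum_product, sum_mul_sum]
      _ ≤ (1 + Real.log M) ^ K * (1 + Real.log M) :=
          mul_le_mul ih (harm_le M) (sum_nonneg fun _ _ => by positivity) (by positivity)
      _ = _ := by rw [pow_succ]

theorem sum_dd4_le (k M : ℕ) (hM : 1 ≤ M) : ∑ n ∈ Icc 1 M, dd k n ^ 4 / n ≤ (1 + Real.log M) ^ (k ^ 4) :=
  (sum_le_sum fun n _ => div_le_div_of_nonneg_right (dd_four_le k n) (Nat.cast_nonneg n)).trans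
    (sum_dd_le (k ^ 4) M hM)

end Pool.Agent.J4H26.TI
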