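import Pool.Agent.J4H26.TI.Sup
import Pool.Agent.TH158.FM.Main

set_option autoImplicit false

/-! The main estimate: preparations. -/

namespace Pool.Agent.J4H26.TI

open MeasureTheory Filter Topology Finset Pool.Agent.H306R2 Pool.Agent.W184 Pool.Agent.J4H26.EQ

/-- the second moment on the line -/
lemma mom2 {T : ℝ} (hT : 1000 ≤ T) : ∫ t in (0:ℝ)..T, zn (1 / 2) t ^ (2 * 1) ≤ T * Real.log T ^ 2 := by
  have h4 := Pool.Agent.TH158.FM.fourth_all T hT
  have e4 : ∀ t : ℝ, ‖riemannZeta (Pool.Agent.TH158.FM.pt (1 / 2) t)‖ = zn (1 / 2) t := fun t => rfl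
  simp_rw [e4] at h4
  have hT0 : 0 < T := by linarith
  set L := Real.log T with hL
  have hL0 : 0 < L := Real.log_pos (by linarith)
  have hc : Continuous (zn (1 / 2)) := zn_cont (σ := 1 / 2) (by norm_num)
  have h1 : ∫ t in (0:ℝ)..T, zn (1 / 2) t ^ (2 * 1) ≤
      ∫ t in (0:ℝ)..T, (1 / (2 * L ^ 2) * zn (1 / 2) t ^ 4 + L ^ 2 / 2) := by
    refine intervalIntegral.integral_mono_on hT0.le ((hc.pow _).intervalIntegrable _ _)
      (((continuous_const.mul (hc.pow 4)).add continuous_const).intervalIntegrable _ _) fun t _ => ?_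
    set x := zn (1 / 2) t
    have h2 : 0 ≤ (x ^ 2 / L - L) ^ 2 := sq_nonneg _
    have h3 : (x ^ 2 / L - L) ^ 2 = x ^ 4 / L ^ 2 - 2 * x ^ 2 + L ^ 2 := by field_simp; ring
    have h4 : 1 / (2 * L ^ 2) * x ^ 4 = 1 / 2 * (x ^ 4 / L ^ 2) := by field_simp
    rw [h4, mul_one]
    linarith
  refine h1.trans ?_
  have i1 : IntervalIntegrable (fun t => 1 / (2 * L ^ 2) * zn (1 / 2) t ^ 4) volume 0 T :=
    (continuous_const.mul (hc.pow 4)).intervalIntegrable _ _
  have i2 : IntervalIntegrable (fun _ : ℝ => L ^ 2 / 2) volume 0 T := continuous_const.intervalIntegrable _ _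
  rw [intervalIntegral.integral_add i1 i2, intervalIntegral.integral_const_mul,
    intervalIntegral.integral_const, smul_eq_mul, sub_zero]
  have h5 : 1 / (2 * L ^ 2) * (∫ t in (0:ℝ)..T, zn (1 / 2) t ^ 4) ≤ 1 / (2 * L ^ 2) * (4 / 5 * (T * L ^ 4)) :=
    mul_le_mul_of_nonneg_left h4 (by positivity)
  have h6 : 1 / (2 * L ^ 2) * (4 / 5 * (T * L ^ 4)) = 2 / 5 * (T * L ^ 2) := by field_simp; ring
  have h7 : 0 < T * L ^ 2 := by positivity
  linarith

/-- the mean square of the difference near the line -/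
theorem Eb {η : ℝ} (h0 : 0 < η) (h1 : η < 1) : ∃ C : ℝ, 0 < C ∧ ∀ᶠ T : ℝ in atTop, ∀ δ H : ℝ, 1 / Real.log T ≤ δ →
    δ ≤ 1 / 32 → 0 ≤ H → H ≤ T → ∀ x ∈ Set.Ioo (1 / 2 + δ - δ / 2) (1 / 2 + δ + δ / 2),
    ∫ y in (0:ℝ)..(T + H + 3), qd 1 (DS (dd 1) ⌊T ^ η⌋₊) x y ≤
      C * (T * Real.log T ^ 2 * Real.exp (-(η * δ * Real.log T))) := by
  obtain ⟨C0, hC0, hL0⟩ := L0 (k := 1) le_rfl
  refine ⟨68 * C0, by positivity, ?_⟩
  filter_upwards [len h0 h1 one_pos, eventually_ge_atTop (1000:ℝ), Real.tendsto_log_atTop.eventually_ge_atTop 2]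
    with T hlen hT hLT
  intro δ H hδ1 hδ2 hH0 hHT x hx
  obtain ⟨hN3, hNT, hNl, hNp⟩ := hlen
  set N := ⌊T ^ η⌋₊ with hN
  set L := Real.log T with hL
  have hT0 : 0 < T := by linarith
  have hLp : 0 < L := by linarith
  have hδ0 : 0 < δ := lt_of_lt_of_le (by positivity) hδ1
  have hN1 : (1:ℝ) ≤ N := by exact_mod_cast (by omega : 1 ≤ N)
  have hlogN : 0 ≤ Real.log N := Real.log_nonneg hN1
  have hlogNL : Real.log N ≤ L := Real.log_le_log (by linarith) hNT
  obtain ⟨Δ, hΔ⟩ : ∃ Δ : ℝ, Δ = x - 1 / 2 := ⟨_, rfl⟩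
  have hx1 : δ / 2 < Δ := by rw [hΔ]; linarith [hx.1]
  have hx2 : Δ < 3 / 2 * δ := by rw [hΔ]; linarith [hx.2]
  have hΔ0 : 0 < Δ := by linarith
  have hxe : x = 1 / 2 + Δ := by rw [hΔ]; ring
  have hx1' : x < 1 := by linarith
  have hcont : Continuous (qd 1 (DS (dd 1) N) x) := qd_cont (DS_diff _ _) hx1'
  have a1 : ∫ y in (0:ℝ)..(T + H + 3), qd 1 (DS (dd 1) N) x y ≤ ∫ y in (0:ℝ)..(3 * T), qd 1 (DS (dd 1) N) x y := by
    refine intervalIntegral.integral_mono_interval le_rfl (by linarith) (by linarith)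
      (Filter.Eventually.of_forall fun y => qd_nonneg _ _ _ _) (hcont.intervalIntegrable _ _)
  refine a1.trans ?_
  rw [hxe]
  refine (hL0 (3 * T) N Δ (by linarith) (by omega) (by linarith) hΔ0 (by linarith)).trans ?_
  have b1 : ∫ t in (0:ℝ)..(2 * (3 * T)), zn (1 / 2) t ^ (2 * 1) ≤ 24 * (T * L ^ 2) := by
    have h := mom2 (T := 2 * (3 * T)) (by linarith)
    have h2 : Real.log (2 * (3 * T)) ≤ 2 * L := by
      have h3 : Real.log (2 * (3 * T)) ≤ Real.log (T * T) := Real.log_le_log (by linarith) (by nlinarith)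
      rw [Real.log_mul hT0.ne' hT0.ne'] at h3
      linarith
    have h4 : 0 ≤ Real.log (2 * (3 * T)) := Real.log_nonneg (by linarith)
    have h5 := pow_le_pow_left₀ h4 h2 2
    calc ∫ t in (0:ℝ)..(2 * (3 * T)), zn (1 / 2) t ^ (2 * 1) ≤ 2 * (3 * T) * Real.log (2 * (3 * T)) ^ 2 := h
      _ ≤ 2 * (3 * T) * (2 * L) ^ 2 := by gcongr
      _ = _ := by ring
  have b2 : PS 1 0 N ≤ 2 * L := by
    have h : PS 1 0 N ≤ ∑ n ∈ Icc 1 N, (1:ℝ) / n := by
      unfold PS
      refine sum_le_sum fun n hn => ?_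
      rw [mem_Icc] at hn
      rw [dd_one_apply (by omega), one_pow, one_mul, sub_zero, Real.rpow_neg_one, one_div]
    have := harm_le N
    linarith
  have hP0 := PS_nonneg 1 0 N
  have b3 : (3 * T + N * (1 + Real.log N)) * PS 1 0 N ≤ 8 * (T * L ^ 2) := by
    have h : 3 * T + N * (1 + Real.log N) ≤ 4 * T := by linarith
    calc (3 * T + N * (1 + Real.log N)) * PS 1 0 N ≤ (4 * T) * (2 * L) := mul_le_mul h b2 hP0 (by linarith)
      _ = 8 * (T * L) := by ring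
      _ ≤ 8 * (T * L ^ 2) := by
          have : L ≤ L ^ 2 := by nlinarith
          gcongr
  have b4 : 1 / Δ ≤ 2 * (T * L ^ 2) := by
    have h : 1 / Δ ≤ 2 * L := by
      rw [div_le_iff₀ hΔ0]
      rw [div_le_iff₀ hLp] at hδ1
      nlinarith
    have h2 : L ≤ T * L ^ 2 := by nlinarith
    linarith
  have hNpow : (N:ℝ) ^ (-(2 * Δ)) ≤ 2 * Real.exp (-(η * δ * L)) := by
    have h := hNp δ hδ0.le (by linarith)
    refine le_trans (Real.rpow_le_rpow_of_exponent_le hN1 (by linarith)) h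
  have hJ0 : 0 ≤ ∫ t in (0:ℝ)..(2 * (3 * T)), zn (1 / 2) t ^ (2 * 1) :=
    intervalIntegral.integral_nonneg (by linarith) fun x _ => pow_nonneg (zn_nonneg _ _) _
  have hK0 : 0 ≤ (3 * T + N * (1 + Real.log N)) * PS 1 0 N := by positivity
  calc C0 * (N:ℝ) ^ (-(2 * Δ)) * ((∫ t in (0:ℝ)..(2 * (3 * T)), zn (1 / 2) t ^ (2 * 1)) +
        (3 * T + N * (1 + Real.log N)) * PS 1 0 N + 1 / Δ) ≤
      C0 * (2 * Real.exp (-(η * δ * L))) * (34 * (T * L ^ 2)) := by
        refine mul_le_mul (mul_le_mul_of_nonneg_left hNpow hC0.le) (by linarith) (by positivity) (by positivity)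
    _ = _ := by ring

/-- comparison of powers -/
lemma pow_cmp {x y e : ℝ} (hx : 0 ≤ x) (hy : 0 ≤ y) (he : |x - y| ≤ e) (he1 : e ≤ 1) (n : ℕ) :
    |x ^ n - y ^ n| ≤ n * 2 ^ n * e * (y ^ n + 1) := by
  have he0 : 0 ≤ e := (abs_nonneg _).trans he
  have hxy : x ≤ y + 1 := by linarith [(abs_le.mp he).2]
  have h1 : |x ^ n - y ^ n| ≤ n * (y + 1) ^ n * e := by
    have h2 : ∀ m : ℕ, |x ^ m - y ^ m| ≤ m * (y + 1) ^ m * e := by
      intro m
      induction m with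
      | zero => simp
      | succ m ih =>
        have e1 : x ^ (m + 1) - y ^ (m + 1) = x * (x ^ m - y ^ m) + (x - y) * y ^ m := by ring
        rw [e1]
        have e2 : y ^ m ≤ (y + 1) ^ m := pow_le_pow_left₀ hy (by linarith) m
        have e3 : (y + 1) ^ m ≤ (y + 1) ^ (m + 1) := pow_le_pow_right₀ (by linarith) (by omega)
        calc |x * (x ^ m - y ^ m) + (x - y) * y ^ m| ≤ |x * (x ^ m - y ^ m)| + |(x - y) * y ^ m| := abs_add_le _ _
          _ = x * |x ^ m - y ^ m| + |x - y| * y ^ m := by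
              rw [abs_mul, abs_mul, abs_of_nonneg hx, abs_of_nonneg (pow_nonneg hy m)]
          _ ≤ (y + 1) * (m * (y + 1) ^ m * e) + e * (y + 1) ^ (m + 1) := by
              refine add_le_add (mul_le_mul hxy ih (abs_nonneg _) (by linarith)) ?_
              exact mul_le_mul he (e2.trans e3) (pow_nonneg hy m) he0
          _ = _ := by push_cast; ring
    exact h2 n
  refine h1.trans ?_
  have h3 : (y + 1) ^ n ≤ 2 ^ n * (y ^ n + 1) := by
    rcases le_total y 1 with h | h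
    · calc (y + 1) ^ n ≤ 2 ^ n := pow_le_pow_left₀ (by linarith) (by linarith) n
        _ ≤ 2 ^ n * (y ^ n + 1) := le_mul_of_one_le_right (by positivity) (by linarith [pow_nonneg hy n])
    · calc (y + 1) ^ n ≤ (2 * y) ^ n := pow_le_pow_left₀ (by linarith) (by linarith) n
        _ = 2 ^ n * y ^ n := mul_pow _ _ _
        _ ≤ 2 ^ n * (y ^ n + 1) := by gcongr; linarith
  calc n * (y + 1) ^ n * e ≤ n * (2 ^ n * (y ^ n + 1)) * e := by gcongr
    _ = _ := by ring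

end Pool.Agent.J4H26.TI
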