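import Pool.Agent.J4H26.TI.Fin

set_option autoImplicit false

/-! The main estimate. -/

namespace Pool.Agent.J4H26.TI

open MeasureTheory Filter Topology Finset Pool.Agent.H306R2 Pool.Agent.W184 Pool.Agent.J4H26.EQ

/-- the mean of `|ζ(1/2+δ+iu)|^{2k}` over `t ≤ u ≤ t + H` -/
noncomputable def WZ (k : ℕ) (δ H t : ℝ) : ℝ := 1 / H * ∫ u in t..(t + H), zn (1 / 2 + δ) u ^ (2 * k)

lemma VV_cont (a : ℕ → ℝ) (M : ℕ) (H : ℝ) : Continuous (VV a M H) := by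
  unfold VV
  fun_prop

lemma cheb {a : ℕ → ℝ} {M : ℕ} {H T y : ℝ} (hT : 0 ≤ T) (hy : 0 < y) :
    volume.real {t ∈ Set.Icc 0 T | y < |VV a M H t|} ≤ (∫ t in (0:ℝ)..T, VV a M H t ^ 2) / y ^ 2 := by
  have hc := VV_cont a M H
  rw [le_div_iff₀ (by positivity), mul_comm]
  have h1 := mul_meas_ge_le_integral_of_nonneg (μ := volume.restrict (Set.Icc 0 T)) (f := fun t => VV a M H t ^ 2)
    (Filter.Eventually.of_forall fun t => sq_nonneg _)
    ((hc.pow 2).continuousOn.integrableOn_compact isCompact_Icc) (y ^ 2)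
  rw [intervalIntegral.integral_of_le hT, ← integral_Icc_eq_integral_Ioc]
  refine le_trans (mul_le_mul_of_nonneg_left ?_ (by positivity)) h1
  have hms : MeasurableSet {x : ℝ | y ^ 2 ≤ VV a M H x ^ 2} := measurableSet_le measurable_const (hc.pow 2).measurable
  rw [measureReal_restrict_apply hms]
  refine measureReal_mono ?_ ?_
  · rintro t ⟨ht1, ht2⟩
    refine ⟨?_, ht1⟩
    show y ^ 2 ≤ VV a M H t ^ 2
    rw [← sq_abs (VV a M H t)]
    exact pow_le_pow_left₀ hy.le ht2.le 2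
  · refine ne_top_of_le_ne_top ?_ (measure_mono Set.inter_subset_right)
    rw [Real.volume_Icc]
    exact ENNReal.ofReal_ne_top

/-- the diagonal sum -/
noncomputable def Dg (k N : ℕ) (δ : ℝ) : ℝ :=
  ∑ n ∈ Icc 1 (N ^ k), cc k N n ^ 2 * (n : ℝ) ^ (-(2 * (1 / 2 + δ)))

/-- the coefficients on the line `Re s = 1/2 + δ` -/
noncomputable def ac (k N : ℕ) (δ : ℝ) (n : ℕ) : ℝ := cc k N n * (n : ℝ) ^ (-(1 / 2 + δ))

lemma det {k N : ℕ} (hN : 1 ≤ N) {δ H t e₀ : ℝ} (hH : 0 < H) (hδ1 : δ ≤ 1 / 32)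
    (he0 : 0 ≤ e₀) (he1 : e₀ ≤ 1) (h1 : ∀ u ∈ Set.Icc t (t + H), qd 1 (DS (dd 1) N) (1 / 2 + δ) u ≤ e₀ ^ 2) :
    |WZ k δ H t - (VV (ac k N δ) (N ^ k) H t + Dg k N δ)| ≤
      (2 * k : ℕ) * 2 ^ (2 * k) * e₀ * ((VV (ac k N δ) (N ^ k) H t + Dg k N δ) + 1) := by
  have hV := VV_eq (cc k N) (N ^ k) (1 / 2 + δ) hH t
  have hW : VV (ac k N δ) (N ^ k) H t + Dg k N δ =
      1 / H * ∫ u in t..(t + H), ‖DS (dd 1) N (((1 / 2 + δ : ℝ) : ℂ) + u * Complex.I)‖ ^ (2 * k) := by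
    have e1 : (fun n : ℕ => cc k N n * (n : ℝ) ^ (-(1 / 2 + δ))) = ac k N δ := rfl
    rw [e1] at hV
    have e2 : ∑ n ∈ Icc 1 (N ^ k), cc k N n ^ 2 * (n : ℝ) ^ (-(2 * (1 / 2 + δ))) = Dg k N δ := rfl
    rw [e2] at hV
    rw [← hV, sub_add_cancel]
    congr 1
    refine intervalIntegral.integral_congr fun u _ => ?_
    rw [DS_cc hN, nrm_pow2]
  rw [hW]
  unfold WZ
  set f : ℝ → ℝ := fun u => zn (1 / 2 + δ) u ^ (2 * k) with hf
  set g : ℝ → ℝ := fun u => ‖DS (dd 1) N (((1 / 2 + δ : ℝ) : ℂ) + u * Complex.I)‖ ^ (2 * k) with hg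
  have cf : Continuous f := (zn_cont (σ := 1 / 2 + δ) (by linarith)).pow _
  have cg : Continuous g := by
    have h2 : Continuous fun u : ℝ => (((1 / 2 + δ : ℝ) : ℂ) + u * Complex.I) := by fun_prop
    exact (((DS_diff (dd 1) N).continuous.comp h2).norm).pow _
  set A : ℝ := (2 * k : ℕ) * 2 ^ (2 * k) * e₀ with hA
  have hpt : ∀ u ∈ Set.Icc t (t + H), |f u - g u| ≤ A * (g u + 1) := by
    intro u hu
    have h3 := h1 u hu
    unfold qd at h3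
    rw [pow_one] at h3
    have h4 : ‖riemannZeta (((1 / 2 + δ : ℝ) : ℂ) + u * Complex.I) - DS (dd 1) N (((1 / 2 + δ : ℝ) : ℂ) + u * Complex.I)‖ ≤ e₀ :=
      (sq_le_sq₀ (norm_nonneg _) he0).mp h3
    exact pow_cmp (norm_nonneg _) (norm_nonneg _) ((abs_norm_sub_norm_le _ _).trans h4) he1 (2 * k)
  have h5 : |∫ u in t..(t + H), (f u - g u)| ≤ ∫ u in t..(t + H), A * (g u + 1) := by
    refine (intervalIntegral.abs_integral_le_integral_abs (by linarith)).trans ?_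
    exact intervalIntegral.integral_mono_on (by linarith) ((cf.sub cg).abs.intervalIntegrable _ _)
      ((continuous_const.mul (cg.add continuous_const)).intervalIntegrable _ _) hpt
  rw [intervalIntegral.integral_sub (cf.intervalIntegrable _ _) (cg.intervalIntegrable _ _),
    intervalIntegral.integral_const_mul, intervalIntegral.integral_add (cg.intervalIntegrable _ _)
      (continuous_const.intervalIntegrable _ _), intervalIntegral.integral_const, smul_eq_mul, mul_one,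
    add_sub_cancel_left] at h5
  rw [← mul_sub, abs_mul, abs_of_pos (by positivity : 0 < 1 / H)]
  calc 1 / H * |(∫ u in t..(t + H), f u) - ∫ u in t..(t + H), g u| ≤
      1 / H * (A * ((∫ u in t..(t + H), g u) + H)) := mul_le_mul_of_nonneg_left h5 (by positivity)
    _ = _ := by field_simp

lemma Dg_le (k N : ℕ) {δ : ℝ} (hδ : 0 < δ) : Dg k N δ ≤ SS k (2 * δ) := by
  refine le_trans ?_ (PS_le_SS k (N ^ k) (show 0 < 2 * δ by positivity))
  unfold Dg PS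
  refine sum_le_sum fun n _ => ?_
  rw [show (-(2 * (1 / 2 + δ)) : ℝ) = -1 - 2 * δ by ring]
  refine mul_le_mul_of_nonneg_right ?_ (by positivity)
  exact pow_le_pow_left₀ (cc_nonneg k N n) (cc_le k N n) 2

lemma PS_le_Dg {k N : ℕ} (hk : 1 ≤ k) (hN : 1 ≤ N) (δ : ℝ) : PS k (2 * δ) N ≤ Dg k N δ := by
  unfold Dg PS
  have hNk : N ≤ N ^ k := Nat.le_self_pow (by omega) N
  refine le_trans (le_of_eq ?_) (sum_le_sum_of_subset_of_nonneg (Icc_subset_Icc_right hNk) fun n _ _ => by positivity)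
  refine sum_congr rfl fun n hn => ?_
  rw [mem_Icc] at hn
  rw [cc_eq hn.2, show (-(2 * (1 / 2 + δ)) : ℝ) = -1 - 2 * δ by ring]

lemma al_sum (k M : ℕ) (δ : ℝ) : ∑ n ∈ Icc 1 M, al k (1 / 2 + δ) n ^ 2 = PS k (2 * δ) M := by
  unfold PS al
  refine sum_congr rfl fun n _ => ?_
  rw [mul_pow, ← Real.rpow_natCast ((n:ℝ) ^ (-(1 / 2 + δ))), ← Real.rpow_mul (Nat.cast_nonneg n)]
  congr 2
  push_cast
  ring

lemma one_le_SS (k : ℕ) {σ : ℝ} (hσ : 0 < σ) : 1 ≤ SS k σ := by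
  have h3 := (SS_summable k hσ).sum_le_tsum {1} fun n _ => by positivity
  have h4 : dd k 1 = 1 := by unfold dd; exact dv_one _
  simp only [Finset.sum_singleton, h4, Nat.cast_one, Real.one_rpow, one_pow, mul_one] at h3
  exact h3

/-- the variance, with the choice of the coefficients -/
lemma var_le {k N : ℕ} (hk : 1 ≤ k) (hN : 1 ≤ N) {δ T H L : ℝ} (hδ : 0 < δ) (hT : 0 ≤ T) (hH : 0 < H)
    (hL1 : 1 ≤ L) (hL : Real.log N ≤ L) :
    ∫ t in (0:ℝ)..T, VV (ac k N δ) (N ^ k) H t ^ 2 ≤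
      6 * T / H * SS k (2 * δ) ^ 2 * (((k:ℝ) + 1) * L) ^ (k ^ 4 + 1) + 2 * (N:ℝ) ^ (k * (4 * k + 6)) := by
  have hM : 1 ≤ N ^ k := Nat.one_le_pow _ _ (by omega)
  have h := var hk (cc_nonneg k N) (cc_le k N) (σ := 1 / 2 + δ) (by linarith) hM hT hH
  have e1 : (fun n : ℕ => cc k N n * (n : ℝ) ^ (-(1 / 2 + δ))) = ac k N δ := rfl
  rw [e1, al_sum] at h
  refine h.trans ?_
  have hN0 : (1:ℝ) ≤ N := by exact_mod_cast hN
  have a1 := PS_le_SS k (N ^ k) (show 0 < 2 * δ by positivity)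
  have a0 := PS_nonneg k (2 * δ) (N ^ k)
  have a2 : 1 + Real.log ((N ^ k : ℕ) : ℝ) ≤ ((k:ℝ) + 1) * L := by
    push_cast
    rw [Real.log_pow]
    have : (k:ℝ) * Real.log N ≤ k * L := mul_le_mul_of_nonneg_left hL (Nat.cast_nonneg k)
    linarith
  have a3 : 0 ≤ 1 + Real.log ((N ^ k : ℕ) : ℝ) := by
    have := Real.log_nonneg (show (1:ℝ) ≤ ((N ^ k : ℕ) : ℝ) by exact_mod_cast hM)
    linarith
  have a4 : ∑ n ∈ Icc 1 (N ^ k), cc k N n * (n:ℝ) ^ (-(1 / 2 + δ)) ≤ ((N ^ k : ℕ) : ℝ) ^ (k + 1) := by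
    calc ∑ n ∈ Icc 1 (N ^ k), cc k N n * (n:ℝ) ^ (-(1 / 2 + δ)) ≤ ∑ n ∈ Icc 1 (N ^ k), ((N ^ k : ℕ) : ℝ) ^ k := by
          refine sum_le_sum fun n hn => ?_
          rw [mem_Icc] at hn
          have hn1 : (1:ℝ) ≤ n := by exact_mod_cast hn.1
          have b1 : (n:ℝ) ^ (-(1 / 2 + δ)) ≤ 1 := Real.rpow_le_one_of_one_le_of_nonpos hn1 (by linarith)
          have b2 : cc k N n ≤ (n:ℝ) ^ k := (cc_le k N n).trans (dd_le k n)
          have b3 : (n:ℝ) ^ k ≤ ((N ^ k : ℕ) : ℝ) ^ k := pow_le_pow_left₀ (by linarith) (by exact_mod_cast hn.2) k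
          calc cc k N n * (n:ℝ) ^ (-(1 / 2 + δ)) ≤ cc k N n * 1 := mul_le_mul_of_nonneg_left b1 (cc_nonneg _ _ _)
            _ ≤ _ := by linarith
      _ = _ := by
          rw [sum_const, Nat.card_Icc, nsmul_eq_mul, Nat.add_sub_cancel, pow_succ]
          ring
  have a5 : 0 ≤ ∑ n ∈ Icc 1 (N ^ k), cc k N n * (n:ℝ) ^ (-(1 / 2 + δ)) :=
    sum_nonneg fun n _ => mul_nonneg (cc_nonneg _ _ _) (by positivity)
  have a6 := pow_le_pow_left₀ a5 a4 4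
  refine add_le_add ?_ ?_
  · gcongr
  · calc 2 * ((N ^ k : ℕ) : ℝ) ^ 2 * (∑ n ∈ Icc 1 (N ^ k), cc k N n * (n:ℝ) ^ (-(1 / 2 + δ))) ^ 4 ≤
        2 * ((N ^ k : ℕ) : ℝ) ^ 2 * (((N ^ k : ℕ) : ℝ) ^ (k + 1)) ^ 4 := by gcongr
      _ = _ := by push_cast; ring

end Pool.Agent.J4H26.TI
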