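import Pool.Agent.J4H26.TI.Fin2

set_option autoImplicit false

/-! The main estimate: conclusion. -/

namespace Pool.Agent.J4H26.TI

open MeasureTheory Filter Topology Finset Pool.Agent.H306R2 Pool.Agent.W184 Pool.Agent.J4H26.EQ

theorem main {k : ℕ} (hk : 1 ≤ k) {e : ℝ} (he : 0 < e) : ∀ᶠ T : ℝ in atTop, ∀ δ H : ℝ, 0 < δ → δ ≤ 1 / 32 → 1 ≤ H →
    volume.real {t ∈ Set.Icc 0 T | e * SS k (2 * δ) < |WZ k δ H t - SS k (2 * δ)|} ≤
      T * Real.log T ^ (k ^ 4 + 3) * (1 / H + H * T ^ (-(δ / (4 * k * (2 * k + 3))))) := by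
  have hk0 : (0:ℝ) < k := by exact_mod_cast hk
  have hk1 : (1:ℝ) ≤ k := by exact_mod_cast hk
  set η : ℝ := 1 / (4 * k * (2 * k + 3)) with hη
  have hη0 : 0 < η := by positivity
  have hη1 : η ≤ 1 / 20 := by
    rw [hη]
    refine one_div_le_one_div_of_le (by norm_num) ?_
    nlinarith
  obtain ⟨C1, hC1, hE⟩ := Eb hη0 (by linarith : η < 1)
  obtain ⟨c, hc, hlow⟩ := SS_low hk
  obtain ⟨Cs, hCs, hup⟩ := SS_up hk
  set C5 : ℝ := 2 ^ (k ^ 2) * Cs / c with hC5
  have hC50 : 0 < C5 := by positivity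
  set e₁ : ℝ := min (e / 4) 1 with he₁
  have he10 : 0 < e₁ := by positivity
  set e₀ : ℝ := min (e / (12 * k * 4 ^ k)) 1 with he₀
  have he00 : 0 < e₀ := by positivity
  set A1 : ℝ := 32 * C1 / e₀ ^ 2 with hA1
  set A2 : ℝ := 24 * ((k:ℝ) + 1) ^ (k ^ 4 + 1) / e₁ ^ 2 with hA2
  set A3 : ℝ := 4 * (2 / e₁ ^ 2 + 1) with hA3
  set A4 : ℝ := 2 * C5 / e₁ with hA4
  have hA10 : 0 < A1 := by positivity
  have hA20 : 0 < A2 := by positivity
  have hA30 : 0 < A3 := by positivity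
  have hA40 : 0 < A4 := by positivity
  filter_upwards [len hη0 (by linarith : η < 1) one_pos, hE, eventually_ge_atTop (1000:ℝ),
    Real.tendsto_log_atTop.eventually_ge_atTop (max (max A1 A2) (max (max A3 A4) 3))] with T hlen hET hT hLT
  intro δ H hδ0 hδ1 hH1
  obtain ⟨hN3, hNT, hNl, hNp⟩ := hlen
  set N := ⌊T ^ η⌋₊ with hN
  set L := Real.log T with hL
  have hT0 : 0 < T := by linarith
  have hLA1 : A1 ≤ L := le_trans (le_trans (le_max_left _ _) (le_max_left _ _)) hLT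
  have hLA2 : A2 ≤ L := le_trans (le_trans (le_max_right _ _) (le_max_left _ _)) hLT
  have hLA3 : A3 ≤ L := le_trans (le_trans (le_trans (le_max_left _ _) (le_max_left _ _)) (le_max_right _ _)) hLT
  have hLA4 : A4 ≤ L := le_trans (le_trans (le_trans (le_max_right _ _) (le_max_left _ _)) (le_max_right _ _)) hLT
  have hL3 : 3 ≤ L := le_trans (le_trans (le_max_right _ _) (le_max_right _ _)) hLT
  have hL0 : 0 < L := by linarith
  have hL1 : 1 ≤ L := by linarith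
  have hH0 : 0 < H := by linarith
  -- the exponential
  have hpow : T ^ (-(δ / (4 * k * (2 * k + 3)))) = Real.exp (-(η * δ * L)) := by
    rw [Real.rpow_def_of_pos hT0, hη, ← hL]
    congr 1
    ring
  rw [hpow]
  set X := Real.exp (-(η * δ * L)) with hX
  have hX0 : 0 < X := Real.exp_pos _
  set S := SS k (2 * δ) with hS
  have hS1 : 1 ≤ S := one_le_SS k (by positivity)
  have hS0 : 0 < S := by linarith
  set K : ℕ := k ^ 4 + 3 with hK
  -- the trivial case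
  have htriv : volume.real {t ∈ Set.Icc 0 T | e * S < |WZ k δ H t - S|} ≤ T := by
    have h1 : volume.real {t ∈ Set.Icc 0 T | e * S < |WZ k δ H t - S|} ≤ volume.real (Set.Icc 0 T) := by
      refine measureReal_mono (fun t ht => ht.1) ?_
      rw [Real.volume_Icc]; exact ENNReal.ofReal_ne_top
    rw [Real.volume_real_Icc_of_le hT0.le, sub_zero] at h1
    exact h1
  rcases le_or_gt 1 (L ^ K * (1 / H + H * X)) with hcase | hcase
  · refine htriv.trans ?_
    calc T = T * 1 := (mul_one T).symm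
      _ ≤ T * (L ^ K * (1 / H + H * X)) := mul_le_mul_of_nonneg_left hcase hT0.le
      _ = _ := by ring
  -- the main case
  have hLK1 : 1 ≤ L ^ K := one_le_pow₀ hL1
  have hHX : H * X < 1 := by
    have h1 : 0 < 1 / H := by positivity
    have h2 : 0 < H * X := by positivity
    nlinarith
  have hLX : L ^ K * X < 1 := by
    have h1 : 0 < 1 / H := by positivity
    have h2 : X ≤ H * X := le_mul_of_one_le_left hX0.le hH1
    have h3 : L ^ K * X ≤ L ^ K * (1 / H + H * X) := mul_le_mul_of_nonneg_left (by linarith) (by positivity)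
    linarith
  have hLX1 : L * X < 1 := by
    have h1 : L ≤ L ^ K := le_self_pow₀ hL1 (by omega)
    have h2 : L * X ≤ L ^ K * X := mul_le_mul_of_nonneg_right h1 hX0.le
    linarith
  have hδL : 1 / L ≤ δ := by
    have h1 : X < Real.exp (-1) := by
      have h2 : Real.exp 1 ≤ L := by linarith [Real.exp_one_lt_d9]
      have h3 : Real.exp 1 * X < 1 := lt_of_le_of_lt (mul_le_mul_of_nonneg_right h2 hX0.le) hLX1
      rw [Real.exp_neg]
      rw [← one_div, lt_div_iff₀ (Real.exp_pos 1), mul_comm]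
      exact h3
    rw [hX, Real.exp_lt_exp] at h1
    rw [div_le_iff₀ hL0]
    have h4 : 1 < η * (δ * L) := by
      have : η * δ * L = η * (δ * L) := by ring
      linarith
    have h5 : 0 < δ * L := by positivity
    nlinarith
  have hHT2 : H ≤ T ^ (1 / 2 : ℝ) := by
    have h1 : T ^ (1 / 2 : ℝ) = Real.exp (L * (1 / 2)) := by rw [Real.rpow_def_of_pos hT0]
    have h2 : H < Real.exp (η * δ * L) := by
      rw [hX, Real.exp_neg, ← div_eq_mul_inv, div_lt_one (Real.exp_pos _)] at hHX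
      exact hHX
    rw [h1]
    refine h2.le.trans (Real.exp_le_exp.mpr ?_)
    have h3 : η * δ ≤ 1 / 2 := by nlinarith
    calc η * δ * L ≤ 1 / 2 * L := mul_le_mul_of_nonneg_right h3 hL0.le
      _ = _ := by ring
  have hsq : T ^ (1 / 2 : ℝ) * T ^ (1 / 2 : ℝ) = T := by
    rw [← Real.rpow_add hT0]; norm_num
  have hr0 : 0 < T ^ (1 / 2 : ℝ) := by positivity
  have hr1 : 1 ≤ T ^ (1 / 2 : ℝ) := Real.one_le_rpow (by linarith) (by norm_num)
  have hHT : H ≤ T := by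
    refine hHT2.trans ?_
    calc T ^ (1 / 2 : ℝ) ≤ T ^ (1 / 2 : ℝ) * T ^ (1 / 2 : ℝ) := le_mul_of_one_le_left hr0.le hr1
      _ = T := hsq
  have hrTH : T ^ (1 / 2 : ℝ) ≤ T / H := by
    rw [le_div_iff₀ hH0]
    calc T ^ (1 / 2 : ℝ) * H ≤ T ^ (1 / 2 : ℝ) * T ^ (1 / 2 : ℝ) := mul_le_mul_of_nonneg_left hHT2 hr0.le
      _ = T := hsq
  have hN1 : 1 ≤ N := by omega
  have hN1' : (1:ℝ) ≤ N := by exact_mod_cast hN1
  have hlogN : Real.log N ≤ L := Real.log_le_log (by linarith) hNT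
  -- the diagonal
  have hdiag : S - e₁ * S ≤ Dg k N δ ∧ Dg k N δ ≤ S := by
    refine ⟨?_, Dg_le k N hδ0⟩
    have h1 := PS_le_Dg hk hN1 δ
    have h2 := tail_le k hN1 (show 0 < 2 * δ by positivity)
    rw [show 2 * δ / 2 = δ by ring] at h2
    have h3 := hNp δ hδ0.le (by linarith)
    have h4 : SS k δ ≤ C5 * S := by
      have b1 := hup δ hδ0 (by linarith)
      have b2 := hlow (2 * δ) (by positivity) (by linarith)
      rw [mul_pow] at b2
      have hp : 0 < δ ^ (k ^ 2) := by positivity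
      have b3 : δ ^ (k ^ 2) * SS k δ ≤ δ ^ (k ^ 2) * (C5 * S) := by
        calc δ ^ (k ^ 2) * SS k δ ≤ Cs := b1
          _ = Cs / c * c := by field_simp
          _ ≤ Cs / c * (2 ^ (k ^ 2) * δ ^ (k ^ 2) * SS k (2 * δ)) := by gcongr
          _ = _ := by rw [hC5, hS]; ring
      exact le_of_mul_le_mul_left b3 hp
    have h5 : (N:ℝ) ^ (-δ) * SS k δ ≤ e₁ * S := by
      have b0 := SS_nonneg k δ
      calc (N:ℝ) ^ (-δ) * SS k δ ≤ (2 * X) * (C5 * S) := mul_le_mul h3 h4 b0 (by positivity)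
        _ = (2 * C5 * X) * S := by ring
        _ ≤ e₁ * S := by
            refine mul_le_mul_of_nonneg_right ?_ hS0.le
            have b1 : 2 * C5 ≤ e₁ * L := by
              have := hLA4
              rw [hA4, div_le_iff₀ he10] at this
              linarith
            calc 2 * C5 * X ≤ e₁ * L * X := mul_le_mul_of_nonneg_right b1 hX0.le
              _ = e₁ * (L * X) := by ring
              _ ≤ e₁ * 1 := by gcongr
              _ = e₁ := mul_one _
    linarith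
  -- the sets
  set a := ac k N δ with ha
  set B1 : Set ℝ := {t ∈ Set.Icc 1 T | ∃ u ∈ Set.Icc t (t + H), e₀ ^ 2 < qd 1 (DS (dd 1) N) (1 / 2 + δ) u} with hB1
  set B2 : Set ℝ := {t ∈ Set.Icc 0 T | e₁ * S < |VV a (N ^ k) H t|} with hB2
  have hsub : {t ∈ Set.Icc 0 T | e * S < |WZ k δ H t - S|} ⊆ Set.Icc 0 1 ∪ (B1 ∪ B2) := by
    rintro t ⟨⟨ht0, htT⟩, hbad⟩
    by_contra hcon
    rw [Set.mem_union, Set.mem_union, not_or, not_or] at hcon
    obtain ⟨h1, h2, h3⟩ := hcon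
    have ht1 : 1 ≤ t := by
      by_contra hlt
      exact h1 ⟨ht0, by linarith⟩
    have h4 : ∀ u ∈ Set.Icc t (t + H), qd 1 (DS (dd 1) N) (1 / 2 + δ) u ≤ e₀ ^ 2 := by
      intro u hu
      by_contra hlt
      push Not at hlt
      exact h2 ⟨⟨ht1, htT⟩, u, hu, hlt⟩
    have h5 : |VV a (N ^ k) H t| ≤ e₁ * S := by
      by_contra hlt
      push Not at hlt
      exact h3 ⟨⟨ht0, htT⟩, hlt⟩
    have h6 := det (k := k) hN1 hH0 hδ1 he00.le (min_le_right _ _) h4
    rw [← ha] at h6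
    set V := VV a (N ^ k) H t with hV
    have h7 := abs_le.mp h5
    have he11 : e₁ ≤ 1 := min_le_right _ _
    have h8 : V + Dg k N δ + 1 ≤ 3 * S := by nlinarith [hdiag.2, h7.2]
    have h9 : ((2 * k : ℕ) : ℝ) * 2 ^ (2 * k) * e₀ * (V + Dg k N δ + 1) ≤ e / 2 * S := by
      have q1 : e₀ ≤ e / (12 * k * 4 ^ k) := min_le_left _ _
      have q2 : ((2 * k : ℕ) : ℝ) * 2 ^ (2 * k) * e₀ ≤ e / 6 := by
        push_cast
        rw [pow_mul]
        calc 2 * (k:ℝ) * (2 ^ 2) ^ k * e₀ ≤ 2 * (k:ℝ) * (2 ^ 2) ^ k * (e / (12 * k * 4 ^ k)) := by gcongr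
          _ = e / 6 := by
              rw [show ((2:ℝ) ^ 2) = 4 by norm_num]
              field_simp
              ring
      have q3 : 0 ≤ ((2 * k : ℕ) : ℝ) * 2 ^ (2 * k) * e₀ := by positivity
      calc ((2 * k : ℕ) : ℝ) * 2 ^ (2 * k) * e₀ * (V + Dg k N δ + 1) ≤
          ((2 * k : ℕ) : ℝ) * 2 ^ (2 * k) * e₀ * (3 * S) := mul_le_mul_of_nonneg_left h8 q3
        _ ≤ e / 6 * (3 * S) := mul_le_mul_of_nonneg_right q2 (by linarith)
        _ = _ := by ring
    have h10 := abs_le.mp (h6.trans h9)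
    have he14 : e₁ * S ≤ e / 4 * S := mul_le_mul_of_nonneg_right (min_le_left _ _) hS0.le
    have h11 : |WZ k δ H t - S| ≤ e * S := by
      rw [abs_le]
      constructor
      · linarith [hdiag.1, h7.1, h10.1]
      · linarith [hdiag.2, h7.2, h10.2]
    linarith
  -- the measures
  have hfin1 : ∀ (P : ℝ → Prop) (x : ℝ), volume {t ∈ Set.Icc x T | P t} ≠ ⊤ := by
    intro P x
    refine ne_top_of_le_ne_top ?_ (measure_mono (Set.sep_subset _ _))
    rw [Real.volume_Icc]; exact ENNReal.ofReal_ne_top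
  have hfinI : volume (Set.Icc (0:ℝ) 1) ≠ ⊤ := by rw [Real.volume_Icc]; exact ENNReal.ofReal_ne_top
  have hm0 : volume.real {t ∈ Set.Icc 0 T | e * S < |WZ k δ H t - S|} ≤ 1 + (volume.real B1 + volume.real B2) := by
    refine (measureReal_mono hsub ?_).trans ?_
    · exact measure_union_ne_top hfinI (measure_union_ne_top (hfin1 _ _) (hfin1 _ _))
    · refine (measureReal_union_le _ _).trans ?_
      have h1 : volume.real (Set.Icc (0:ℝ) 1) = 1 := by
        rw [Real.volume_real_Icc_of_le zero_le_one]; norm_num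
      have h2 := measureReal_union_le (μ := volume) B1 B2
      linarith
  -- first set
  have hE' := hET δ H hδL hδ1 hH0.le hHT
  have hm1 : volume.real B1 ≤ 1 / 2 * (T * L ^ K * (H * X)) := by
    have h1 := bad_le (Q := DS (dd 1) N) (DS_diff _ _) (σ := 1 / 2 + δ) (ρ := δ / 2)
      (E := C1 * (T * L ^ 2 * X)) (T := T) (H := H) (ε₀ := e₀) (by positivity) (by linarith) (by linarith)
      (by linarith) hH0.le (by positivity) hE' he00
    refine h1.trans ?_
    have h2 : (1:ℝ) / δ ≤ L := by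
      rw [div_le_iff₀ hδ0]
      rw [div_le_iff₀ hL0] at hδL
      linarith
    have hpi : 1 ≤ Real.pi := by linarith [Real.pi_gt_three]
    have h3 : (H + 1) * (4 * (C1 * (T * L ^ 2 * X)) / (e₀ ^ 2 * (Real.pi * (δ / 2)))) ≤
        (2 * H) * (8 * (C1 * (T * L ^ 2 * X)) / e₀ ^ 2 * L) := by
      refine mul_le_mul (by linarith) ?_ (by positivity) (by positivity)
      calc 4 * (C1 * (T * L ^ 2 * X)) / (e₀ ^ 2 * (Real.pi * (δ / 2))) =
          8 * (C1 * (T * L ^ 2 * X)) / e₀ ^ 2 * (1 / Real.pi * (1 / δ)) := by field_simp; ring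
        _ ≤ 8 * (C1 * (T * L ^ 2 * X)) / e₀ ^ 2 * (1 * L) := by
            have : 1 / Real.pi ≤ 1 := by rw [div_le_one (by linarith)]; exact hpi
            gcongr
        _ = _ := by ring
    refine h3.trans ?_
    have h4 : A1 ≤ L ^ (k ^ 4) := hLA1.trans (le_self_pow₀ hL1 (by positivity))
    calc (2 * H) * (8 * (C1 * (T * L ^ 2 * X)) / e₀ ^ 2 * L) = 1 / 2 * (T * (A1 * L ^ 3) * (H * X)) := by
          rw [hA1]; ring
      _ ≤ 1 / 2 * (T * (L ^ (k ^ 4) * L ^ 3) * (H * X)) := by gcongr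
      _ = _ := by rw [hK, pow_add]
  -- second set
  have hm2 : volume.real B2 ≤ 1 / 4 * (T * L ^ K * (1 / H)) + 2 / e₁ ^ 2 * T ^ (1 / 2 : ℝ) := by
    have h1 := cheb (a := a) (M := N ^ k) (H := H) hT0.le (show 0 < e₁ * S by positivity)
    have h2 := var_le hk hN1 hδ0 hT0.le hH0 hL1 hlogN
    rw [← ha, ← hS] at h2
    have h3 : (N:ℝ) ^ (k * (4 * k + 6)) ≤ T ^ (1 / 2 : ℝ) := by
      have q1 : (N:ℝ) ≤ T ^ η := Nat.floor_le (by positivity)
      calc (N:ℝ) ^ (k * (4 * k + 6)) ≤ (T ^ η) ^ (k * (4 * k + 6)) := pow_le_pow_left₀ (by linarith) q1 _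
        _ = T ^ (1 / 2 : ℝ) := by
            rw [← Real.rpow_natCast, ← Real.rpow_mul hT0.le]
            congr 1
            rw [hη]
            push_cast
            field_simp
            ring
    refine h1.trans ?_
    rw [div_le_iff₀ (by positivity)]
    refine h2.trans ?_
    have h4 : (((k:ℝ) + 1) * L) ^ (k ^ 4 + 1) * 6 ≤ 1 / 4 * e₁ ^ 2 * L ^ K := by
      have q1 : A2 ≤ L ^ 2 := hLA2.trans (by nlinarith)
      have q2 : 6 * ((k:ℝ) + 1) ^ (k ^ 4 + 1) = 1 / 4 * e₁ ^ 2 * A2 := by rw [hA2]; field_simp; ring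
      calc (((k:ℝ) + 1) * L) ^ (k ^ 4 + 1) * 6 = 6 * ((k:ℝ) + 1) ^ (k ^ 4 + 1) * L ^ (k ^ 4 + 1) := by
            rw [mul_pow]; ring
        _ = 1 / 4 * e₁ ^ 2 * A2 * L ^ (k ^ 4 + 1) := by rw [q2]
        _ ≤ 1 / 4 * e₁ ^ 2 * L ^ 2 * L ^ (k ^ 4 + 1) := by gcongr
        _ = _ := by rw [hK]; ring
    have h5 : 2 * (N:ℝ) ^ (k * (4 * k + 6)) ≤ 2 / e₁ ^ 2 * T ^ (1 / 2 : ℝ) * (e₁ * S) ^ 2 := by
      have q1 : 1 ≤ S ^ 2 := one_le_pow₀ hS1
      calc 2 * (N:ℝ) ^ (k * (4 * k + 6)) ≤ 2 * T ^ (1 / 2 : ℝ) := by linarith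
        _ ≤ 2 * T ^ (1 / 2 : ℝ) * S ^ 2 := le_mul_of_one_le_right (by positivity) q1
        _ = _ := by field_simp
    calc 6 * T / H * S ^ 2 * (((k:ℝ) + 1) * L) ^ (k ^ 4 + 1) + 2 * (N:ℝ) ^ (k * (4 * k + 6)) =
        T / H * S ^ 2 * ((((k:ℝ) + 1) * L) ^ (k ^ 4 + 1) * 6) + 2 * (N:ℝ) ^ (k * (4 * k + 6)) := by ring
      _ ≤ T / H * S ^ 2 * (1 / 4 * e₁ ^ 2 * L ^ K) + 2 / e₁ ^ 2 * T ^ (1 / 2 : ℝ) * (e₁ * S) ^ 2 :=
          add_le_add (mul_le_mul_of_nonneg_left h4 (by positivity)) h5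
      _ = _ := by ring
  have hm3 : 1 + 2 / e₁ ^ 2 * T ^ (1 / 2 : ℝ) ≤ 1 / 4 * (T * L ^ K * (1 / H)) := by
    have h1 : L ≤ L ^ K := le_self_pow₀ hL1 (by omega)
    calc 1 + 2 / e₁ ^ 2 * T ^ (1 / 2 : ℝ) ≤ (2 / e₁ ^ 2 + 1) * T ^ (1 / 2 : ℝ) := by linarith
      _ = 1 / 4 * A3 * T ^ (1 / 2 : ℝ) := by rw [hA3]; ring
      _ ≤ 1 / 4 * L ^ K * (T / H) := by
          refine mul_le_mul ?_ hrTH hr0.le (by positivity)
          linarith
      _ = _ := by ring
  have hp1 : 0 ≤ T * L ^ K * (1 / H) := by positivity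
  have hp2 : 0 ≤ T * L ^ K * (H * X) := by positivity
  calc _ ≤ 1 + (volume.real B1 + volume.real B2) := hm0
    _ ≤ T * L ^ K * (1 / H) + T * L ^ K * (H * X) := by linarith
    _ = _ := by ring

end Pool.Agent.J4H26.TI
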