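import Pool.Agent.J4H26.TI.Cf

set_option autoImplicit false

/-! The sum over quadruples with `m n' = m' n`. -/

namespace Pool.Agent.J4H26.TI

open MeasureTheory Filter Topology Finset Pool.Agent.H306R2 Pool.Agent.W184 Pool.Agent.J4H26.EQ

/-- `d_k(n) n^{-σ}` -/
noncomputable def al (k : ℕ) (σ : ℝ) (n : ℕ) : ℝ := dd k n * (n:ℝ) ^ (-σ)

lemma al_nonneg (k : ℕ) (σ : ℝ) (n : ℕ) : 0 ≤ al k σ n := mul_nonneg (dd_nonneg k n) (by positivity)

lemma al_mul_le {k : ℕ} (hk : 1 ≤ k) (σ : ℝ) (m n : ℕ) : al k σ (m * n) ≤ al k σ m * al k σ n := by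
  unfold al
  push_cast
  rw [Real.mul_rpow (Nat.cast_nonneg m) (Nat.cast_nonneg n)]
  calc dd k (m * n) * ((m:ℝ) ^ (-σ) * (n:ℝ) ^ (-σ)) ≤ (dd k m * dd k n) * ((m:ℝ) ^ (-σ) * (n:ℝ) ^ (-σ)) :=
        mul_le_mul_of_nonneg_right (dd_mul_le hk m n) (by positivity)
    _ = _ := by ring

/-- the weight `max(a,b) / |a - b|` -/
noncomputable def XX (a b : ℕ) : ℝ := max (a:ℝ) b / |(a:ℝ) - b|

lemma XX_nonneg (a b : ℕ) : 0 ≤ XX a b := by unfold XX; positivity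

lemma XX_comm (a b : ℕ) : XX a b = XX b a := by unfold XX; rw [max_comm, abs_sub_comm]

lemma XX_scale {g : ℕ} (hg : 0 < g) (a b : ℕ) : XX (g * a) (g * b) = XX a b := by
  unfold XX
  have hg0 : (0:ℝ) < g := by exact_mod_cast hg
  push_cast
  rw [← mul_max_of_nonneg _ _ hg0.le, ← mul_sub, abs_mul, abs_of_pos hg0, mul_div_mul_left _ _ hg0.ne']

lemma ratio {m n m' n' : ℕ} (hm : 0 < m) (hm' : 0 < m') (h : m * n' = m' * n) :
    ∃ a b : ℕ, m = Nat.gcd m n * a ∧ n = Nat.gcd m n * b ∧ m' = Nat.gcd m' n' * a ∧ n' = Nat.gcd m' n' * b := by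
  obtain ⟨a, b, hab, h1, h2⟩ := Nat.exists_coprime m n
  obtain ⟨a', b', hab', h1', h2'⟩ := Nat.exists_coprime m' n'
  have hg : 0 < Nat.gcd m n := Nat.gcd_pos_of_pos_left _ hm
  have hg' : 0 < Nat.gcd m' n' := Nat.gcd_pos_of_pos_left _ hm'
  set g := Nat.gcd m n with hgd
  set g' := Nat.gcd m' n' with hgd'
  have e : a * b' = a' * b := by
    have h3 : (g * g') * (a * b') = (g * g') * (a' * b) := by
      calc (g * g') * (a * b') = (a * g) * (b' * g') := by ring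
        _ = m * n' := by rw [← h1, ← h2']
        _ = m' * n := h
        _ = (a' * g') * (b * g) := by rw [← h1', ← h2]
        _ = (g * g') * (a' * b) := by ring
    exact Nat.eq_of_mul_eq_mul_left (Nat.mul_pos hg hg') h3
  have d1 : a ∣ a' := hab.dvd_of_dvd_mul_right ⟨b', e.symm⟩
  have d2 : a' ∣ a := hab'.dvd_of_dvd_mul_right ⟨b, e⟩
  have e1 : a = a' := Nat.dvd_antisymm d1 d2
  have ha : 0 < a := by
    rcases Nat.eq_zero_or_pos a with h0 | h0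
    · rw [h0, zero_mul] at h1; omega
    · exact h0
  have e2 : b = b' := by
    rw [← e1] at e
    exact (Nat.eq_of_mul_eq_mul_left ha e).symm
  refine ⟨a, b, by rw [mul_comm]; exact h1, by rw [mul_comm]; exact h2, ?_, ?_⟩
  · rw [mul_comm, e1]; exact h1'
  · rw [mul_comm, e2]; exact h2'

theorem quad {k : ℕ} (hk : 1 ≤ k) (σ : ℝ) (M : ℕ) :
    ∑ x ∈ ((Icc 1 M ×ˢ Icc 1 M) ×ˢ (Icc 1 M ×ˢ Icc 1 M)).filter
      (fun x => x.1.1 ≠ x.1.2 ∧ x.1.1 * x.2.2 = x.2.1 * x.1.2),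
      (al k σ x.1.1 * al k σ x.1.2) * (al k σ x.2.1 * al k σ x.2.2) * XX x.1.1 x.1.2 ≤
    (∑ g ∈ Icc 1 M, al k σ g ^ 2) ^ 2 * ∑ p ∈ (Icc 1 M ×ˢ Icc 1 M).filter (fun p => p.1 ≠ p.2),
      al k σ p.1 ^ 2 * al k σ p.2 ^ 2 * XX p.1 p.2 := by
  set S := ((Icc 1 M ×ˢ Icc 1 M) ×ˢ (Icc 1 M ×ˢ Icc 1 M)).filter
      (fun x : (ℕ × ℕ) × (ℕ × ℕ) => x.1.1 ≠ x.1.2 ∧ x.1.1 * x.2.2 = x.2.1 * x.1.2) with hS
  set U := (Icc 1 M ×ˢ Icc 1 M) ×ˢ ((Icc 1 M ×ˢ Icc 1 M).filter (fun p : ℕ × ℕ => p.1 ≠ p.2)) with hU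
  set φ : (ℕ × ℕ) × (ℕ × ℕ) → (ℕ × ℕ) × (ℕ × ℕ) := fun x =>
    ((Nat.gcd x.1.1 x.1.2, Nat.gcd x.2.1 x.2.2), (x.1.1 / Nat.gcd x.1.1 x.1.2, x.1.2 / Nat.gcd x.1.1 x.1.2)) with hφ
  set G : (ℕ × ℕ) × (ℕ × ℕ) → ℝ := fun y =>
    (al k σ y.1.1 ^ 2 * al k σ y.1.2 ^ 2) * (al k σ y.2.1 ^ 2 * al k σ y.2.2 ^ 2 * XX y.2.1 y.2.2) with hG
  have key : ∀ x ∈ S, ∃ g g' a b : ℕ, x = ((g * a, g * b), (g' * a, g' * b)) ∧ φ x = ((g, g'), (a, b)) ∧
      1 ≤ g ∧ g ≤ M ∧ 1 ≤ g' ∧ g' ≤ M ∧ 1 ≤ a ∧ a ≤ M ∧ 1 ≤ b ∧ b ≤ M ∧ a ≠ b := by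
    rintro ⟨⟨m, n⟩, ⟨m', n'⟩⟩ hx
    rw [hS, mem_filter, mem_product, mem_product, mem_product, mem_Icc, mem_Icc, mem_Icc, mem_Icc] at hx
    simp only at hx
    obtain ⟨⟨⟨⟨hm1, hm2⟩, ⟨hn1, hn2⟩⟩, ⟨⟨hm1', hm2'⟩, ⟨hn1', hn2'⟩⟩⟩, hne, heq⟩ := hx
    obtain ⟨a, b, e1, e2, e3, e4⟩ := ratio (by omega) (by omega) heq
    have hg : 0 < Nat.gcd m n := Nat.gcd_pos_of_pos_left _ (by omega)
    have hg' : 0 < Nat.gcd m' n' := Nat.gcd_pos_of_pos_left _ (by omega)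
    set g := Nat.gcd m n with hgd
    set g' := Nat.gcd m' n' with hgd'
    have ha : 0 < a := by
      rcases Nat.eq_zero_or_pos a with h0 | h0
      · rw [h0, mul_zero] at e1; omega
      · exact h0
    have hb : 0 < b := by
      rcases Nat.eq_zero_or_pos b with h0 | h0
      · rw [h0, mul_zero] at e2; omega
      · exact h0
    have hgM : g ≤ M := le_trans (Nat.le_of_dvd (by omega) (Nat.gcd_dvd_left m n)) hm2
    have hgM' : g' ≤ M := le_trans (Nat.le_of_dvd (by omega) (Nat.gcd_dvd_left m' n')) hm2'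
    have haM : a ≤ M := le_trans (Nat.le_of_dvd (by omega) ⟨g, by rw [mul_comm]; exact e1⟩) hm2
    have hbM : b ≤ M := le_trans (Nat.le_of_dvd (by omega) ⟨g, by rw [mul_comm]; exact e2⟩) hn2
    refine ⟨g, g', a, b, ?_, ?_, hg, hgM, hg', hgM', ha, haM, hb, hbM, ?_⟩
    · rw [← e1, ← e2, ← e3, ← e4]
    · simp only [hφ]
      rw [← hgd, ← hgd']
      have d1 : m / g = a := by
        conv_lhs => rw [e1]
        exact Nat.mul_div_cancel_left _ hg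
      have d2 : n / g = b := by
        conv_lhs => rw [e2]
        exact Nat.mul_div_cancel_left _ hg
      rw [d1, d2]
    · rintro rfl
      exact hne (e1.trans e2.symm)
  have hinj : Set.InjOn φ (S : Set ((ℕ × ℕ) × (ℕ × ℕ))) := by
    intro x hx y hy hxy
    obtain ⟨g, g', a, b, e1, e2, -⟩ := key x (mem_coe.mp hx)
    obtain ⟨h, h', c, d, f1, f2, -⟩ := key y (mem_coe.mp hy)
    rw [e2, f2] at hxy
    simp only [Prod.mk.injEq] at hxy
    obtain ⟨⟨r1, r2⟩, r3, r4⟩ := hxy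
    rw [e1, f1, r1, r2, r3, r4]
  calc ∑ x ∈ S, (al k σ x.1.1 * al k σ x.1.2) * (al k σ x.2.1 * al k σ x.2.2) * XX x.1.1 x.1.2 ≤
      ∑ x ∈ S, G (φ x) := by
        refine sum_le_sum fun x hx => ?_
        obtain ⟨g, g', a, b, e1, e2, hg, -⟩ := key x hx
        rw [e2, e1]
        simp only [hG]
        rw [XX_scale hg]
        have h1 := al_mul_le hk σ g a
        have h2 := al_mul_le hk σ g b
        have h3 := al_mul_le hk σ g' a
        have h4 := al_mul_le hk σ g' b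
        have n0 := fun n => al_nonneg k σ n
        have hX := XX_nonneg a b
        calc (al k σ (g * a) * al k σ (g * b)) * (al k σ (g' * a) * al k σ (g' * b)) * XX a b ≤
            ((al k σ g * al k σ a) * (al k σ g * al k σ b)) * ((al k σ g' * al k σ a) * (al k σ g' * al k σ b)) * XX a b := by
              refine mul_le_mul_of_nonneg_right ?_ hX
              refine mul_le_mul (mul_le_mul h1 h2 (n0 _) (mul_nonneg (n0 _) (n0 _)))
                (mul_le_mul h3 h4 (n0 _) (mul_nonneg (n0 _) (n0 _))) (mul_nonneg (n0 _) (n0 _)) ?_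
              exact mul_nonneg (mul_nonneg (n0 _) (n0 _)) (mul_nonneg (n0 _) (n0 _))
          _ = _ := by ring
    _ = ∑ y ∈ S.image φ, G y := (sum_image hinj).symm
    _ ≤ ∑ y ∈ U, G y := by
        refine sum_le_sum_of_subset_of_nonneg ?_ fun y _ _ => ?_
        · intro y hy
          rw [mem_image] at hy
          obtain ⟨x, hx, rfl⟩ := hy
          obtain ⟨g, g', a, b, e1, e2, h1, h2, h3, h4, h5, h6, h7, h8, h9⟩ := key x hx
          rw [e2, hU, mem_product, mem_product, mem_filter, mem_product, mem_Icc, mem_Icc, mem_Icc, mem_Icc]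
          exact ⟨⟨⟨h1, h2⟩, ⟨h3, h4⟩⟩, ⟨⟨h5, h6⟩, ⟨h7, h8⟩⟩, h9⟩
        · simp only [hG]
          have hX := XX_nonneg y.2.1 y.2.2
          positivity
    _ = _ := by
        rw [hU, sum_product]
        simp only [hG]
        simp_rw [← mul_sum]
        rw [← sum_mul]
        congr 1
        rw [sum_product, sq, sum_mul_sum]

lemma XX_div_le {a b : ℕ} (ha : 1 ≤ a) (hb : 1 ≤ b) (hab : a ≠ b) :
    XX a b / ((a:ℝ) * b) ≤ 1 / (a:ℝ) * (1 / (b:ℝ) + 1 / |(a:ℝ) - b|) := by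
  have ha0 : (0:ℝ) < a := by exact_mod_cast ha
  have hb0 : (0:ℝ) < b := by exact_mod_cast hb
  unfold XX
  rcases lt_or_gt_of_ne hab with h | h
  · have h1 : (a:ℝ) < b := by exact_mod_cast h
    have h2 : 0 < (b:ℝ) - a := by linarith
    rw [max_eq_right h1.le, abs_sub_comm, abs_of_pos h2]
    have e : (b:ℝ) / (b - a) / (a * b) = 1 / a * (1 / (b - a)) := by field_simp
    rw [e]
    have : 0 ≤ 1 / (b:ℝ) := by positivity
    gcongr
    linarith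
  · have h1 : (b:ℝ) < a := by exact_mod_cast h
    have h2 : 0 < (a:ℝ) - b := by linarith
    rw [max_eq_left h1.le, abs_of_pos h2]
    refine le_of_eq ?_
    field_simp
    ring

theorem pairs_le {k : ℕ} {σ : ℝ} (hσ : 1 / 2 ≤ σ) {M : ℕ} (hM : 1 ≤ M) :
    ∑ p ∈ (Icc 1 M ×ˢ Icc 1 M).filter (fun p => p.1 ≠ p.2), al k σ p.1 ^ 2 * al k σ p.2 ^ 2 * XX p.1 p.2 ≤
      3 * (1 + Real.log M) ^ (k ^ 4 + 1) := by
  have hlog : 0 ≤ Real.log M := Real.log_nonneg (by exact_mod_cast hM)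
  set P := (Icc 1 M ×ˢ Icc 1 M).filter (fun p : ℕ × ℕ => p.1 ≠ p.2) with hP
  have hal : ∀ n : ℕ, 1 ≤ n → al k σ n ^ 2 ≤ dd k n ^ 2 / n := by
    intro n hn
    have hn1 : (1:ℝ) ≤ n := by exact_mod_cast hn
    have hn0 : (0:ℝ) < n := by linarith
    unfold al
    rw [mul_pow, div_eq_mul_inv]
    refine mul_le_mul_of_nonneg_left ?_ (sq_nonneg _)
    rw [← Real.rpow_natCast, ← Real.rpow_mul hn0.le, ← Real.rpow_neg_one]
    refine Real.rpow_le_rpow_of_exponent_le hn1 ?_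
    push_cast
    linarith
  have hmem : ∀ p ∈ P, 1 ≤ p.1 ∧ 1 ≤ p.2 ∧ p.1 ≠ p.2 := by
    intro p hp
    rw [hP, mem_filter, mem_product, mem_Icc, mem_Icc] at hp
    exact ⟨hp.1.1.1, hp.1.2.1, hp.2⟩
  -- symmetric sum
  set Z : ℕ → ℕ → ℝ := fun a b => XX a b / ((a:ℝ) * b) with hZ
  have hZ0 : ∀ a b, 0 ≤ Z a b := fun a b => by
    have := XX_nonneg a b
    simp only [hZ]; positivity
  have hZc : ∀ a b, Z a b = Z b a := fun a b => by
    simp only [hZ]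
    rw [XX_comm, mul_comm]
  have s1 : ∑ p ∈ P, al k σ p.1 ^ 2 * al k σ p.2 ^ 2 * XX p.1 p.2 ≤
      ∑ p ∈ P, (1 / 2 * (dd k p.1 ^ 4 * Z p.1 p.2) + 1 / 2 * (dd k p.2 ^ 4 * Z p.2 p.1)) := by
    refine sum_le_sum fun p hp => ?_
    obtain ⟨h1, h2, h3⟩ := hmem p hp
    have h1' : (0:ℝ) < p.1 := by exact_mod_cast h1
    have h2' : (0:ℝ) < p.2 := by exact_mod_cast h2
    have hX := XX_nonneg p.1 p.2
    have a1 := hal p.1 h1
    have a2 := hal p.2 h2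
    calc al k σ p.1 ^ 2 * al k σ p.2 ^ 2 * XX p.1 p.2 ≤
        (dd k p.1 ^ 2 / p.1) * (dd k p.2 ^ 2 / p.2) * XX p.1 p.2 := by gcongr
      _ = dd k p.1 ^ 2 * dd k p.2 ^ 2 * Z p.1 p.2 := by simp only [hZ]; field_simp
      _ ≤ (1 / 2 * dd k p.1 ^ 4 + 1 / 2 * dd k p.2 ^ 4) * Z p.1 p.2 := by
          refine mul_le_mul_of_nonneg_right ?_ (hZ0 _ _)
          nlinarith [sq_nonneg (dd k p.1 ^ 2 - dd k p.2 ^ 2)]
      _ = _ := by rw [hZc p.2 p.1]; ring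
  have s2 : ∑ p ∈ P, dd k p.2 ^ 4 * Z p.2 p.1 = ∑ p ∈ P, dd k p.1 ^ 4 * Z p.1 p.2 := by
    refine sum_nbij' (fun p => (p.2, p.1)) (fun p => (p.2, p.1)) ?_ ?_ ?_ ?_ ?_
    · intro p hp
      rw [hP, mem_filter, mem_product] at hp ⊢
      exact ⟨⟨hp.1.2, hp.1.1⟩, hp.2.symm⟩
    · intro p hp
      rw [hP, mem_filter, mem_product] at hp ⊢
      exact ⟨⟨hp.1.2, hp.1.1⟩, hp.2.symm⟩
    · intro p _; rfl
    · intro p _; rfl
    · intro p _; rfl
  rw [sum_add_distrib, ← mul_sum, ← mul_sum, s2] at s1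
  have s3 : ∑ p ∈ P, dd k p.1 ^ 4 * Z p.1 p.2 ≤ 3 * (1 + Real.log M) ^ (k ^ 4 + 1) := by
    have b1 : ∑ p ∈ P, dd k p.1 ^ 4 * Z p.1 p.2 ≤
        ∑ p ∈ P, dd k p.1 ^ 4 * (1 / (p.1:ℝ) * (1 / (p.2:ℝ) + 1 / |(p.1:ℝ) - p.2|)) := by
      refine sum_le_sum fun p hp => ?_
      obtain ⟨h1, h2, h3⟩ := hmem p hp
      exact mul_le_mul_of_nonneg_left (XX_div_le h1 h2 h3) (by positivity)
    refine b1.trans ?_
    rw [hP, sum_filter, sum_product]
    have b2 : ∀ a ∈ Icc 1 M, ∑ b ∈ Icc 1 M, (if a ≠ b then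
        dd k a ^ 4 * (1 / (a:ℝ) * (1 / (b:ℝ) + 1 / |(a:ℝ) - b|)) else 0) ≤
        dd k a ^ 4 / a * (3 * (1 + Real.log M)) := by
      intro a ha
      rw [← sum_filter]
      have e : ∑ b ∈ (Icc 1 M).filter (fun b => a ≠ b), dd k a ^ 4 * (1 / (a:ℝ) * (1 / (b:ℝ) + 1 / |(a:ℝ) - b|)) =
          dd k a ^ 4 / a * ((∑ b ∈ (Icc 1 M).filter (fun b => a ≠ b), 1 / (b:ℝ)) +
            ∑ b ∈ (Icc 1 M).filter (fun b => b ≠ a), 1 / |(a:ℝ) - b|) := by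
        rw [mul_add, mul_sum, mul_sum]
        have : (Icc 1 M).filter (fun b => b ≠ a) = (Icc 1 M).filter (fun b => a ≠ b) := by
          ext b; simp only [mem_filter, ne_comm]
        rw [this, ← sum_add_distrib]
        refine sum_congr rfl fun b _ => ?_
        ring
      rw [e]
      have c1 : ∑ b ∈ (Icc 1 M).filter (fun b => a ≠ b), 1 / (b:ℝ) ≤ 1 + Real.log M :=
        (sum_le_sum_of_subset_of_nonneg (filter_subset _ _) fun _ _ _ => by positivity).trans (harm_le M)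
      have c2 := inv_sum_le ha
      refine mul_le_mul_of_nonneg_left (by linarith) (by positivity)
    refine (sum_le_sum b2).trans ?_
    rw [← sum_mul]
    calc (∑ a ∈ Icc 1 M, dd k a ^ 4 / a) * (3 * (1 + Real.log M)) ≤
        (1 + Real.log M) ^ (k ^ 4) * (3 * (1 + Real.log M)) :=
          mul_le_mul_of_nonneg_right (sum_dd4_le k M hM) (by positivity)
      _ = _ := by rw [pow_succ]; ring
  linarith

end Pool.Agent.J4H26.TI
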