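import Pool.Agent.J4H26.TI.Var
import Pool.Agent.H402R2.SubMean

set_option autoImplicit false

/-! Large values of the difference near a line, counted by unit intervals. -/

namespace Pool.Agent.J4H26.TI

open MeasureTheory Filter Topology Finset Pool.Agent.H306R2 Pool.Agent.W184 Pool.Agent.J4H26.EQ
open scoped ENNReal

lemma diffAt {z : ℂ} (h : z.re < 1) : DifferentiableAt ℂ riemannZeta z := by
  refine differentiableAt_riemannZeta ?_
  rintro rfl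
  simp at h

lemma re_eq (σ u : ℝ) : ((σ : ℂ) + u * Complex.I).re = σ := by simp

lemma im_eq (σ u : ℝ) : ((σ : ℂ) + u * Complex.I).im = u := by simp

/-- the integral over a rectangle -/
lemma rect_le {Q : ℂ → ℂ} (hQ : Differentiable ℂ Q) {σ ρ E B : ℝ} (hρ0 : 0 < ρ) (hσ1 : σ + ρ < 1) (hB : 0 ≤ B)
    (hE : ∀ x ∈ Set.Ioo (σ - ρ) (σ + ρ), ∫ y in (0:ℝ)..B, qd 1 Q x y ≤ E) :
    ∫⁻ z in {z : ℂ | z.re ∈ Set.Ioo (σ - ρ) (σ + ρ) ∧ z.im ∈ Set.Ioo 0 B},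
      ‖riemannZeta z - Q z‖ₑ ^ (2:ℝ) ≤ ENNReal.ofReal (2 * ρ * E) := by
  set f : ℝ × ℝ → ℝ≥0∞ := fun p => ‖riemannZeta ((p.1 : ℂ) + p.2 * Complex.I) - Q ((p.1 : ℂ) + p.2 * Complex.I)‖ₑ ^ (2:ℝ)
    with hf
  have e1 : {z : ℂ | z.re ∈ Set.Ioo (σ - ρ) (σ + ρ) ∧ z.im ∈ Set.Ioo 0 B} =
      Complex.measurableEquivRealProd ⁻¹' (Set.Ioo (σ - ρ) (σ + ρ) ×ˢ Set.Ioo 0 B) := by
    ext z; simp [Complex.measurableEquivRealProd_apply]
  have e2 : ∀ z : ℂ, ‖riemannZeta z - Q z‖ₑ ^ (2:ℝ) = f (Complex.measurableEquivRealProd z) := by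
    intro z
    simp only [hf, Complex.measurableEquivRealProd_apply, Complex.re_add_im]
  rw [e1]
  simp_rw [e2]
  rw [(Complex.volume_preserving_equiv_real_prod).setLIntegral_comp_preimage_emb
    Complex.measurableEquivRealProd.measurableEmbedding, Measure.volume_eq_prod, ← Measure.prod_restrict]
  refine (lintegral_prod_le _).trans ?_
  have h1 : ∀ x ∈ Set.Ioo (σ - ρ) (σ + ρ), ∫⁻ y in Set.Ioo 0 B, f (x, y) ≤ ENNReal.ofReal E := by
    intro x hx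
    have e3 : ∀ y : ℝ, f (x, y) = ENNReal.ofReal (qd 1 Q x y) := by
      intro y
      simp only [hf]
      unfold qd
      rw [pow_one, ← ofReal_norm, ENNReal.ofReal_rpow_of_nonneg (norm_nonneg _) (by norm_num)]
      congr 1
      exact Real.rpow_natCast _ 2
    simp_rw [e3]
    have hc : Continuous (qd 1 Q x) := qd_cont hQ (by linarith [hx.2])
    rw [← ofReal_integral_eq_lintegral_ofReal]
    · refine ENNReal.ofReal_le_ofReal ?_
      rw [← integral_Ioc_eq_integral_Ioo, ← intervalIntegral.integral_of_le hB]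
      exact hE x hx
    · exact (hc.continuousOn.integrableOn_compact isCompact_Icc).mono_set Set.Ioo_subset_Icc_self
    · exact Filter.Eventually.of_forall fun y => qd_nonneg _ _ _ _
  refine (setLIntegral_mono' measurableSet_Ioo h1).trans ?_
  rw [setLIntegral_const, Real.volume_Ioo, ← ENNReal.ofReal_mul']
  · refine ENNReal.ofReal_le_ofReal (le_of_eq (by ring))
  · linarith

/-- separated points with large values -/
lemma count_sep {Q : ℂ → ℂ} (hQ : Differentiable ℂ Q) {σ ρ E B ε₀ : ℝ} (hρ0 : 0 < ρ) (hρ1 : ρ ≤ 1 / 4)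
    (hσ1 : σ + ρ < 1) (hB : 0 ≤ B) (hE0 : 0 ≤ E)
    (hE : ∀ x ∈ Set.Ioo (σ - ρ) (σ + ρ), ∫ y in (0:ℝ)..B, qd 1 Q x y ≤ E) (hε : 0 < ε₀) (J : Finset ℕ)
    (hsep : ∀ i ∈ J, ∀ j ∈ J, i ≠ j → i + 2 ≤ j ∨ j + 2 ≤ i) (u : ℕ → ℝ)
    (hJ : ∀ j ∈ J, 1 ≤ j ∧ (j:ℝ) + 2 ≤ B ∧ (j:ℝ) ≤ u j ∧ u j ≤ j + 1 ∧
      ε₀ ^ 2 < qd 1 Q σ (u j)) :
    (J.card : ℝ) * (ε₀ ^ 2 * (Real.pi * ρ ^ 2)) ≤ 2 * ρ * E := by
  set w : ℕ → ℂ := fun j => (σ : ℂ) + u j * Complex.I with hw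
  set F : ℂ → ℝ≥0∞ := fun z => ‖riemannZeta z - Q z‖ₑ ^ (2:ℝ) with hF
  set R : Set ℂ := {z : ℂ | z.re ∈ Set.Ioo (σ - ρ) (σ + ρ) ∧ z.im ∈ Set.Ioo 0 B} with hR
  have hball : ∀ j, ∀ z ∈ Metric.ball (w j) ρ, |z.re - σ| < ρ ∧ |z.im - u j| < ρ := by
    intro j z hz
    rw [Metric.mem_ball, dist_eq_norm] at hz
    have h1 := Complex.abs_re_le_norm (z - w j)
    have h2 := Complex.abs_im_le_norm (z - w j)
    rw [Complex.sub_re, hw] at h1
    rw [Complex.sub_im, hw] at h2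
    simp only [re_eq] at h1
    simp only [im_eq] at h2
    exact ⟨by linarith, by linarith⟩
  have h1 : ∀ j ∈ J, ENNReal.ofReal (ε₀ ^ 2 * (Real.pi * ρ ^ 2)) ≤ ∫⁻ z in Metric.ball (w j) ρ, F z := by
    intro j hj
    obtain ⟨-, -, -, -, h5⟩ := hJ j hj
    have hd : DifferentiableOn ℂ (fun z => riemannZeta z - Q z) (Metric.ball (w j) ρ) := by
      intro z hz
      have h2 := (hball j z hz).1
      rw [abs_lt] at h2
      exact ((diffAt (by linarith)).sub hQ.differentiableAt).differentiableWithinAt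
    have h3 := Pool.Agent.H402R2.SubMean.rpow_mul_le_lintegral (w := w j) (p := 2) hρ0 (by norm_num) hd
    refine le_trans (ENNReal.ofReal_le_ofReal ?_) h3
    refine mul_le_mul_of_nonneg_right ?_ (by positivity)
    have e : ‖riemannZeta (w j) - Q (w j)‖ ^ (2:ℝ) = qd 1 Q σ (u j) := by
      unfold qd
      rw [pow_one]
      exact Real.rpow_natCast _ 2
    rw [e]
    exact h5.le
  have hdis : (J : Set ℕ).PairwiseDisjoint (fun j => Metric.ball (w j) ρ) := by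
    intro i hi j hj hij
    rw [Function.onFun, Set.disjoint_left]
    intro z hz1 hz2
    obtain ⟨-, -, a3, a4, -⟩ := hJ i hi
    obtain ⟨-, -, b3, b4, -⟩ := hJ j hj
    have c1 := (hball i z hz1).2
    have c2 := (hball j z hz2).2
    rw [abs_lt] at c1 c2
    rcases hsep i hi j hj hij with h | h
    · have : (i:ℝ) + 2 ≤ j := by exact_mod_cast h
      linarith
    · have : (j:ℝ) + 2 ≤ i := by exact_mod_cast h
      linarith
  have h2 : ∑ j ∈ J, ENNReal.ofReal (ε₀ ^ 2 * (Real.pi * ρ ^ 2)) ≤ ENNReal.ofReal (2 * ρ * E) := by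
    calc ∑ j ∈ J, ENNReal.ofReal (ε₀ ^ 2 * (Real.pi * ρ ^ 2)) ≤ ∑ j ∈ J, ∫⁻ z in Metric.ball (w j) ρ, F z :=
          sum_le_sum h1
      _ = ∫⁻ z in ⋃ j ∈ J, Metric.ball (w j) ρ, F z :=
          (lintegral_biUnion_finset hdis (fun j _ => Metric.isOpen_ball.measurableSet) F).symm
      _ ≤ ∫⁻ z in R, F z := by
          refine lintegral_mono_set ?_
          intro z hz
          rw [Set.mem_iUnion₂] at hz
          obtain ⟨j, hj, hz⟩ := hz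
          obtain ⟨a1, a2, a3, a4, -⟩ := hJ j hj
          obtain ⟨c1, c2⟩ := hball j z hz
          rw [abs_lt] at c1 c2
          have a1' : (1:ℝ) ≤ j := by exact_mod_cast a1
          refine ⟨⟨by linarith, by linarith⟩, ⟨by linarith, by linarith⟩⟩
      _ ≤ _ := rect_le hQ hρ0 hσ1 hB hE
  rw [sum_const, nsmul_eq_mul, ← ENNReal.ofReal_natCast, ← ENNReal.ofReal_mul (by positivity),
    ENNReal.ofReal_le_ofReal_iff (by positivity)] at h2
  exact h2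

/-- unit intervals with large values -/
theorem count {Q : ℂ → ℂ} (hQ : Differentiable ℂ Q) {σ ρ E B ε₀ : ℝ} (hρ0 : 0 < ρ) (hρ1 : ρ ≤ 1 / 4)
    (hσ1 : σ + ρ < 1) (hB : 0 ≤ B) (hE0 : 0 ≤ E)
    (hE : ∀ x ∈ Set.Ioo (σ - ρ) (σ + ρ), ∫ y in (0:ℝ)..B, qd 1 Q x y ≤ E) (hε : 0 < ε₀) (J : Finset ℕ)
    (hJ : ∀ j ∈ J, 1 ≤ j ∧ (j:ℝ) + 2 ≤ B ∧ ∃ u : ℝ, (j:ℝ) ≤ u ∧ u ≤ j + 1 ∧ ε₀ ^ 2 < qd 1 Q σ u) :
    (J.card : ℝ) * (ε₀ ^ 2 * (Real.pi * ρ ^ 2)) ≤ 4 * ρ * E := by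
  classical
  have hu : ∀ j : ℕ, ∃ u : ℝ, j ∈ J → (j:ℝ) ≤ u ∧ u ≤ j + 1 ∧ ε₀ ^ 2 < qd 1 Q σ u := by
    intro j
    by_cases h : j ∈ J
    · obtain ⟨-, -, u, h1⟩ := hJ j h
      exact ⟨u, fun _ => h1⟩
    · exact ⟨0, fun h' => absurd h' h⟩
  choose u hu using hu
  have hpar : ∀ r : ℕ, ((J.filter (fun j => j % 2 = r)).card : ℝ) * (ε₀ ^ 2 * (Real.pi * ρ ^ 2)) ≤ 2 * ρ * E := by
    intro r
    refine count_sep hQ hρ0 hρ1 hσ1 hB hE0 hE hε _ ?_ u ?_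
    · intro i hi j hj hij
      rw [mem_filter] at hi hj
      omega
    · intro j hj
      rw [mem_filter] at hj
      obtain ⟨a1, a2, -⟩ := hJ j hj.1
      obtain ⟨b1, b2, b3⟩ := hu j hj.1
      exact ⟨a1, a2, b1, b2, b3⟩
  have hcard : (J.card : ℝ) = ((J.filter (fun j => j % 2 = 0)).card : ℝ) + ((J.filter (fun j => j % 2 = 1)).card : ℝ) := by
    rw [← Nat.cast_add]
    congr 1
    rw [← card_union_of_disjoint]
    · congr 1
      ext j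
      simp only [mem_union, mem_filter]
      constructor
      · intro h
        rcases Nat.mod_two_eq_zero_or_one j with h1 | h1
        · exact Or.inl ⟨h, h1⟩
        · exact Or.inr ⟨h, h1⟩
      · rintro (h | h) <;> exact h.1
    · rw [disjoint_left]
      intro j h1 h2
      rw [mem_filter] at h1 h2
      omega
  rw [hcard, add_mul]
  have := hpar 0
  have := hpar 1
  linarith

/-- the heights whose window contains a large value -/
theorem bad_le {Q : ℂ → ℂ} (hQ : Differentiable ℂ Q) {σ ρ E T H ε₀ : ℝ} (hρ0 : 0 < ρ) (hρ1 : ρ ≤ 1 / 4)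
    (hσ1 : σ + ρ < 1) (hT : 1 ≤ T) (hH : 0 ≤ H) (hE0 : 0 ≤ E)
    (hE : ∀ x ∈ Set.Ioo (σ - ρ) (σ + ρ), ∫ y in (0:ℝ)..(T + H + 3), qd 1 Q x y ≤ E) (hε : 0 < ε₀) :
    volume.real {t ∈ Set.Icc 1 T | ∃ u ∈ Set.Icc t (t + H), ε₀ ^ 2 < qd 1 Q σ u} ≤
      (H + 1) * (4 * E / (ε₀ ^ 2 * (Real.pi * ρ))) := by
  classical
  set J : Finset ℕ := (Icc 1 (⌊T + H⌋₊)).filter (fun j => ∃ u : ℝ, (j:ℝ) ≤ u ∧ u ≤ j + 1 ∧ ε₀ ^ 2 < qd 1 Q σ u) with hJd
  have hcnt := count hQ hρ0 hρ1 hσ1 (B := T + H + 3) (by linarith) hE0 hE hε J (by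
    intro j hj
    rw [hJd, mem_filter, mem_Icc] at hj
    obtain ⟨⟨h1, h2⟩, h3⟩ := hj
    have h4 : (j:ℝ) ≤ T + H := (Nat.le_floor_iff (by linarith)).mp h2
    exact ⟨h1, by linarith, h3⟩)
  have hsub : {t ∈ Set.Icc 1 T | ∃ u ∈ Set.Icc t (t + H), ε₀ ^ 2 < qd 1 Q σ u} ⊆
      ⋃ j ∈ J, Set.Icc ((j:ℝ) - H) (j + 1) := by
    intro t ht
    obtain ⟨⟨ht1, htT⟩, u, ⟨hu1, hu2⟩, hu3⟩ := ht
    have hu0 : 0 ≤ u := by linarith
    have hf1 : (⌊u⌋₊ : ℝ) ≤ u := Nat.floor_le hu0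
    have hf2 : u < ⌊u⌋₊ + 1 := Nat.lt_floor_add_one u
    rw [Set.mem_iUnion₂]
    refine ⟨⌊u⌋₊, ?_, ?_⟩
    · rw [hJd, mem_filter, mem_Icc]
      refine ⟨⟨Nat.le_floor (by push_cast; linarith), Nat.floor_mono (by linarith)⟩, u, hf1, hf2.le, hu3⟩
    · exact ⟨by linarith, by linarith⟩
  have hfin : volume (⋃ j ∈ J, Set.Icc ((j:ℝ) - H) (j + 1)) ≤ ENNReal.ofReal (J.card * (H + 1)) := by
    refine (measure_biUnion_finset_le _ _).trans ?_
    have : ∀ j ∈ J, volume (Set.Icc ((j:ℝ) - H) (j + 1)) = ENNReal.ofReal (H + 1) := by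
      intro j _
      rw [Real.volume_Icc]
      congr 1; ring
    rw [sum_congr rfl this, sum_const, nsmul_eq_mul, ENNReal.ofReal_mul (Nat.cast_nonneg _), ENNReal.ofReal_natCast]
  have h1 : volume.real {t ∈ Set.Icc 1 T | ∃ u ∈ Set.Icc t (t + H), ε₀ ^ 2 < qd 1 Q σ u} ≤ J.card * (H + 1) := by
    rw [Measure.real]
    refine ENNReal.toReal_le_of_le_ofReal (by positivity) ((measure_mono hsub).trans hfin)
  refine h1.trans ?_
  have h2 : (J.card : ℝ) ≤ 4 * E / (ε₀ ^ 2 * (Real.pi * ρ)) := by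
    rw [le_div_iff₀ (by positivity)]
    have : (J.card : ℝ) * (ε₀ ^ 2 * (Real.pi * ρ)) * ρ ≤ 4 * E * ρ := by nlinarith
    exact le_of_mul_le_mul_right this hρ0
  rw [mul_comm]
  exact mul_le_mul_of_nonneg_left h2 (by linarith)

end Pool.Agent.J4H26.TI
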