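import Pool.Agent.J4H26.TI.Quad

set_option autoImplicit false

/-! The mean square over `t` of the mean of `|D|²` over `[t, t+H]` minus its diagonal part. -/

namespace Pool.Agent.J4H26.TI

open MeasureTheory Filter Topology Finset Pool.Agent.H306R2 Pool.Agent.W184 Pool.Agent.J4H26.EQ

/-- the frequency of a pair -/
noncomputable def lm (p : ℕ × ℕ) : ℝ := Real.log p.1 - Real.log p.2

/-- the factor that comes from the average over a window of length `H` -/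
noncomputable def kp (H : ℝ) (p : ℕ × ℕ) : ℝ := Real.sin (lm p * (H / 2)) / (lm p * (H / 2))

/-- the exchange of a pair -/
def sw (p : ℕ × ℕ) : ℕ × ℕ := (p.2, p.1)

lemma lm_sw (p : ℕ × ℕ) : lm (sw p) = -lm p := by unfold lm sw; simp only; ring

lemma kp_sw (H : ℝ) (p : ℕ × ℕ) : kp H (sw p) = kp H p := by
  unfold kp
  rw [lm_sw, neg_mul, Real.sin_neg, neg_div_neg_eq]

lemma sin_div_le_one (y : ℝ) : |Real.sin y / y| ≤ 1 := by
  rw [abs_div]
  rcases eq_or_ne y 0 with h | h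
  · subst h; simp
  · rw [div_le_one (abs_pos.mpr h)]
    exact Real.abs_sin_le_abs

lemma kp_le_one (H : ℝ) (p : ℕ × ℕ) : |kp H p| ≤ 1 := sin_div_le_one _

lemma win_cos {x H : ℝ} (hx : x ≠ 0) (hH : 0 < H) (t : ℝ) :
    1 / H * ∫ u in t..(t + H), Real.cos (u * x) =
      Real.sin (x * (H / 2)) / (x * (H / 2)) * Real.cos ((t + H / 2) * x) := by
  have h1 : ∫ u in t..(t + H), Real.cos (u * x) = (Real.sin ((t + H) * x) - Real.sin (t * x)) / x := by
    rw [intervalIntegral.integral_comp_mul_right (fun t => Real.cos t) hx, integral_cos, smul_eq_mul,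
      div_eq_inv_mul]
  rw [h1, Real.sin_sub_sin, show ((t + H) * x - t * x) / 2 = x * (H / 2) by ring,
    show ((t + H) * x + t * x) / 2 = (t + H / 2) * x by ring]
  field_simp

/-- off-diagonal pairs -/
noncomputable def PP (M : ℕ) : Finset (ℕ × ℕ) := (Icc 1 M ×ˢ Icc 1 M).filter (fun p => p.1 ≠ p.2)

lemma mem_PP {M : ℕ} {p : ℕ × ℕ} : p ∈ PP M ↔ ((1 ≤ p.1 ∧ p.1 ≤ M) ∧ (1 ≤ p.2 ∧ p.2 ≤ M)) ∧ p.1 ≠ p.2 := by
  unfold PP
  rw [mem_filter, mem_product, mem_Icc, mem_Icc]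

lemma sw_mem {M : ℕ} {p : ℕ × ℕ} (h : p ∈ PP M) : sw p ∈ PP M := by
  rw [mem_PP] at h ⊢
  exact ⟨⟨h.1.2, h.1.1⟩, h.2.symm⟩

lemma lm_ge {M : ℕ} {p : ℕ × ℕ} (h : p ∈ PP M) : 1 ≤ XX p.1 p.2 * |lm p| ∧ 0 < |lm p| := by
  rw [mem_PP] at h
  obtain ⟨⟨⟨a1, a2⟩, ⟨b1, b2⟩⟩, hne⟩ := h
  have ha0 : (0:ℝ) < p.1 := by exact_mod_cast a1
  have hb0 : (0:ℝ) < p.2 := by exact_mod_cast b1
  unfold XX lm
  rcases lt_or_gt_of_ne hne with h | h
  · have h1 : (p.1:ℝ) < p.2 := by exact_mod_cast h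
    have hg := log_gap a1 h
    have hd : 0 < ((p.2:ℝ) - p.1) / p.2 := div_pos (by linarith) hb0
    rw [max_eq_right h1.le, abs_sub_comm, abs_of_pos (by linarith : (0:ℝ) < p.2 - p.1), abs_sub_comm (Real.log _),
      abs_of_pos (by linarith)]
    refine ⟨?_, by linarith⟩
    calc (1:ℝ) = (p.2:ℝ) / (p.2 - p.1) * (((p.2:ℝ) - p.1) / p.2) := by
          have : (p.2:ℝ) - p.1 ≠ 0 := by linarith
          field_simp
      _ ≤ _ := mul_le_mul_of_nonneg_left hg (div_nonneg hb0.le (by linarith))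
  · have h1 : (p.2:ℝ) < p.1 := by exact_mod_cast h
    have hg := log_gap b1 h
    have hd : 0 < ((p.1:ℝ) - p.2) / p.1 := div_pos (by linarith) ha0
    rw [max_eq_left h1.le, abs_of_pos (by linarith : (0:ℝ) < p.1 - p.2), abs_of_pos (by linarith)]
    refine ⟨?_, by linarith⟩
    calc (1:ℝ) = (p.1:ℝ) / (p.1 - p.2) * (((p.1:ℝ) - p.2) / p.1) := by
          have : (p.1:ℝ) - p.2 ≠ 0 := by linarith
          field_simp
      _ ≤ _ := mul_le_mul_of_nonneg_left hg (div_nonneg ha0.le (by linarith))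

lemma kp_le {M : ℕ} {p : ℕ × ℕ} (h : p ∈ PP M) {H : ℝ} (hH : 0 < H) : |kp H p| ≤ 2 / H * XX p.1 p.2 := by
  obtain ⟨h1, h2⟩ := lm_ge h
  unfold kp
  have h3 : |lm p * (H / 2)| = |lm p| * (H / 2) := by rw [abs_mul, abs_of_pos (by positivity : 0 < H / 2)]
  rw [abs_div, h3, div_le_iff₀ (by positivity)]
  calc |Real.sin (lm p * (H / 2))| ≤ 1 := Real.abs_sin_le_one _
    _ ≤ XX p.1 p.2 * |lm p| := h1
    _ = 2 / H * XX p.1 p.2 * (|lm p| * (H / 2)) := by field_simp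

/-- the oscillating part -/
noncomputable def VV (a : ℕ → ℝ) (M : ℕ) (H t : ℝ) : ℝ :=
  ∑ p ∈ PP M, (a p.1 * a p.2 * kp H p) * Real.cos ((t + H / 2) * lm p)

lemma log_ne {m n : ℕ} (hm : 1 ≤ m) (hn : 1 ≤ n) (h : m ≠ n) : Real.log m - Real.log n ≠ 0 := by
  intro h1
  have h2 : Real.log m = Real.log n := by linarith
  have h3 := Real.log_injOn_pos (by simpa using (by exact_mod_cast hm : (0:ℝ) < m))
    (by simpa using (by exact_mod_cast hn : (0:ℝ) < n)) h2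
  exact h (by exact_mod_cast h3)

theorem VV_eq (g : ℕ → ℝ) (M : ℕ) (σ : ℝ) {H : ℝ} (hH : 0 < H) (t : ℝ) :
    (1 / H * ∫ u in t..(t + H), ‖DS g M ((σ : ℂ) + u * Complex.I)‖ ^ 2) -
      ∑ n ∈ Icc 1 M, g n ^ 2 * (n : ℝ) ^ (-(2 * σ)) = VV (fun n => g n * (n:ℝ) ^ (-σ)) M H t := by
  set a : ℕ → ℝ := fun n => g n * (n:ℝ) ^ (-σ) with ha
  have hsq : ∀ n, g n ^ 2 * (n : ℝ) ^ (-(2 * σ)) = a n * a n := by
    intro n
    simp only [ha]
    rw [show (-(2 * σ)) = -σ * (2:ℕ) by push_cast; ring, Real.rpow_mul (Nat.cast_nonneg n), Real.rpow_natCast]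
    ring
  simp_rw [hsq, DS_norm_sq]
  have e1 : ∀ u : ℝ, (∑ m ∈ Icc 1 M, ∑ n ∈ Icc 1 M, g m * (m:ℝ) ^ (-σ) * (g n * (n:ℝ) ^ (-σ)) *
      Real.cos (u * (Real.log m - Real.log n))) =
      ∑ p ∈ Icc 1 M ×ˢ Icc 1 M, a p.1 * a p.2 * Real.cos (u * lm p) := by
    intro u
    rw [sum_product]
    rfl
  simp_rw [e1]
  rw [intervalIntegral.integral_finsetSum fun p _ => Continuous.intervalIntegrable (by fun_prop) _ _, mul_sum,
    ← sum_filter_add_sum_filter_not (Icc 1 M ×ˢ Icc 1 M) (fun p => p.1 ≠ p.2)]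
  have e2 : ∑ p ∈ (Icc 1 M ×ˢ Icc 1 M).filter (fun p => ¬ p.1 ≠ p.2),
      1 / H * ∫ u in t..(t + H), a p.1 * a p.2 * Real.cos (u * lm p) = ∑ n ∈ Icc 1 M, a n * a n := by
    rw [sum_filter, sum_product]
    refine sum_congr rfl fun n hn => ?_
    have : ∀ m ∈ Icc 1 M, (if ¬ n ≠ m then 1 / H * ∫ u in t..(t + H), a n * a m * Real.cos (u * lm (n, m)) else 0) =
        if n = m then a n * a n else 0 := by
      intro m _
      by_cases h : n = m
      · subst h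
        rw [if_pos (by simp), if_pos rfl]
        have : lm (n, n) = 0 := by unfold lm; simp
        rw [this]
        simp only [mul_zero, Real.cos_zero, mul_one, intervalIntegral.integral_const, smul_eq_mul]
        field_simp
        ring
      · rw [if_neg (by simpa using h), if_neg h]
    rw [sum_congr rfl this, sum_ite_eq, if_pos hn]
  have e3 : ∑ p ∈ (Icc 1 M ×ˢ Icc 1 M).filter (fun p => p.1 ≠ p.2),
      1 / H * ∫ u in t..(t + H), a p.1 * a p.2 * Real.cos (u * lm p) = VV a M H t := by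
    unfold VV PP
    refine sum_congr rfl fun p hp => ?_
    have hp' : p ∈ PP M := hp
    rw [mem_PP] at hp'
    have hne : lm p ≠ 0 := log_ne hp'.1.1.1 hp'.1.2.1 hp'.2
    rw [intervalIntegral.integral_const_mul, ← mul_assoc, mul_comm (1 / H), mul_assoc, win_cos hne hH]
    unfold kp
    ring
  rw [e2, e3]
  ring

/-- bound for the correlations -/
lemma corr_le {M : ℕ} {p q : ℕ × ℕ} (hp : p ∈ PP M) (hq : q ∈ PP M) {T : ℝ} (hT : 0 ≤ T) (H : ℝ) :
    |∫ t in (0:ℝ)..T, Real.cos ((t + H / 2) * (lm p - lm q))| ≤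
      (if p.1 * q.2 = q.1 * p.2 then T else 0) + 2 * (M:ℝ) ^ 2 := by
  rw [mem_PP] at hp hq
  obtain ⟨⟨⟨a1, a2⟩, ⟨b1, b2⟩⟩, hne⟩ := hp
  obtain ⟨⟨⟨c1, c2⟩, ⟨d1, d2⟩⟩, hne'⟩ := hq
  have hM : (1:ℝ) ≤ M := by exact_mod_cast le_trans a1 a2
  have pa : (0:ℝ) < p.1 := by exact_mod_cast a1
  have pb : (0:ℝ) < p.2 := by exact_mod_cast b1
  have pc : (0:ℝ) < q.1 := by exact_mod_cast c1
  have pd : (0:ℝ) < q.2 := by exact_mod_cast d1
  have e : lm p - lm q = Real.log ((p.1 * q.2 : ℕ) : ℝ) - Real.log ((q.1 * p.2 : ℕ) : ℝ) := by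
    unfold lm
    push_cast
    rw [Real.log_mul pa.ne' pd.ne', Real.log_mul pc.ne' pb.ne']
    ring
  by_cases h : p.1 * q.2 = q.1 * p.2
  · rw [if_pos h, e, h, sub_self]
    simp only [mul_zero, Real.cos_zero, intervalIntegral.integral_const, smul_eq_mul, mul_one, sub_zero]
    rw [abs_of_nonneg hT]
    have : (0:ℝ) ≤ (M:ℝ) ^ 2 := by positivity
    linarith
  · rw [if_neg h, zero_add]
    have hx : lm p - lm q ≠ 0 := by
      rw [e]
      exact log_ne (Nat.mul_pos a1 d1) (Nat.mul_pos c1 b1) h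
    have e4 : ∫ t in (0:ℝ)..T, Real.cos ((t + H / 2) * (lm p - lm q)) =
        ∫ t in (0 + H / 2)..(T + H / 2), Real.cos (t * (lm p - lm q)) :=
      intervalIntegral.integral_comp_add_right (fun t => Real.cos (t * (lm p - lm q))) (H / 2)
    rw [e4]
    refine (abs_int_cos hx).trans ?_
    have hgap : 1 / (M:ℝ) ^ 2 ≤ |lm p - lm q| := by
      have gen : ∀ m n : ℕ, 1 ≤ m → m < n → n ≤ M * M → 1 / (M:ℝ) ^ 2 ≤ |Real.log m - Real.log n| := by
        intro m n hm hmn hn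
        have hg := log_gap hm hmn
        have hn0 : (0:ℝ) < n := by exact_mod_cast (by omega : 0 < n)
        have h1 : (m:ℝ) + 1 ≤ n := by exact_mod_cast hmn
        have h2 : (n:ℝ) ≤ (M:ℝ) ^ 2 := by
          rw [sq]; exact_mod_cast hn
        have h3 : 1 / (M:ℝ) ^ 2 ≤ ((n:ℝ) - m) / n := by
          rw [div_le_div_iff₀ (by positivity) hn0]
          nlinarith
        rw [abs_sub_comm]
        exact (h3.trans hg).trans (le_abs_self _)
      rw [e]
      rcases lt_or_gt_of_ne h with h' | h'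
      · exact gen _ _ (Nat.mul_pos a1 d1) h' (Nat.mul_le_mul c2 b2)
      · rw [abs_sub_comm]
        exact gen _ _ (Nat.mul_pos c1 b1) h' (Nat.mul_le_mul a2 d2)
    have hpos : 0 < |lm p - lm q| := abs_pos.mpr hx
    rw [div_le_iff₀ hpos]
    have hM2 : (0:ℝ) < (M:ℝ) ^ 2 := by positivity
    calc (2:ℝ) = 2 * (M:ℝ) ^ 2 * (1 / (M:ℝ) ^ 2) := by field_simp
      _ ≤ _ := mul_le_mul_of_nonneg_left hgap (by positivity)

theorem var {k : ℕ} (hk : 1 ≤ k) {g : ℕ → ℝ} (hg0 : ∀ n, 0 ≤ g n) (hg1 : ∀ n, g n ≤ dd k n) {σ : ℝ}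
    (hσ : 1 / 2 ≤ σ) {M : ℕ} (hM : 1 ≤ M) {T H : ℝ} (hT : 0 ≤ T) (hH : 0 < H) :
    ∫ t in (0:ℝ)..T, VV (fun n => g n * (n:ℝ) ^ (-σ)) M H t ^ 2 ≤
      6 * T / H * (∑ n ∈ Icc 1 M, al k σ n ^ 2) ^ 2 * (1 + Real.log M) ^ (k ^ 4 + 1) +
      2 * (M:ℝ) ^ 2 * (∑ n ∈ Icc 1 M, g n * (n:ℝ) ^ (-σ)) ^ 4 := by
  set a : ℕ → ℝ := fun n => g n * (n:ℝ) ^ (-σ) with ha
  have ha0 : ∀ n, 0 ≤ a n := fun n => mul_nonneg (hg0 n) (by positivity)
  have ha1 : ∀ n, a n ≤ al k σ n := fun n => mul_le_mul_of_nonneg_right (hg1 n) (by positivity)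
  have hal0 := fun n => al_nonneg k σ n
  set b : ℕ × ℕ → ℝ := fun p => a p.1 * a p.2 * kp H p with hb
  have hbsw : ∀ p, |b (sw p)| = |b p| := by
    intro p
    simp only [hb]
    rw [kp_sw]
    unfold sw
    simp only
    rw [mul_comm (a p.2)]
  set J : ℕ × ℕ → ℕ × ℕ → ℝ := fun p q => (if p.1 * q.2 = q.1 * p.2 then T else 0) + 2 * (M:ℝ) ^ 2 with hJ
  have e1 : ∀ t : ℝ, VV a M H t ^ 2 = ∑ p ∈ PP M, ∑ q ∈ PP M, b p * b q *
      (1 / 2 * Real.cos ((t + H / 2) * (lm p - lm q)) + 1 / 2 * Real.cos ((t + H / 2) * (lm p - lm (sw q)))) := by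
    intro t
    unfold VV
    rw [sq, sum_mul_sum]
    refine sum_congr rfl fun p _ => sum_congr rfl fun q _ => ?_
    have h1 := Real.cos_sub ((t + H / 2) * lm p) ((t + H / 2) * lm q)
    have h2 := Real.cos_add ((t + H / 2) * lm p) ((t + H / 2) * lm q)
    rw [lm_sw, show (t + H / 2) * (lm p - lm q) = (t + H / 2) * lm p - (t + H / 2) * lm q by ring,
      show (t + H / 2) * (lm p - -lm q) = (t + H / 2) * lm p + (t + H / 2) * lm q by ring, h1, h2]
    simp only [hb]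
    ring
  have e2 : ∫ t in (0:ℝ)..T, VV a M H t ^ 2 = ∑ p ∈ PP M, ∑ q ∈ PP M, b p * b q *
      (1 / 2 * (∫ t in (0:ℝ)..T, Real.cos ((t + H / 2) * (lm p - lm q))) +
        1 / 2 * ∫ t in (0:ℝ)..T, Real.cos ((t + H / 2) * (lm p - lm (sw q)))) := by
    simp_rw [e1]
    rw [intervalIntegral.integral_finsetSum fun p _ => Continuous.intervalIntegrable (by fun_prop) _ _]
    refine sum_congr rfl fun p _ => ?_
    rw [intervalIntegral.integral_finsetSum fun q _ => Continuous.intervalIntegrable (by fun_prop) _ _]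
    refine sum_congr rfl fun q _ => ?_
    rw [intervalIntegral.integral_const_mul, intervalIntegral.integral_add
      (Continuous.intervalIntegrable (by fun_prop) _ _) (Continuous.intervalIntegrable (by fun_prop) _ _),
      intervalIntegral.integral_const_mul, intervalIntegral.integral_const_mul]
  rw [e2]
  have s1 : ∑ p ∈ PP M, ∑ q ∈ PP M, b p * b q *
      (1 / 2 * (∫ t in (0:ℝ)..T, Real.cos ((t + H / 2) * (lm p - lm q))) +
        1 / 2 * ∫ t in (0:ℝ)..T, Real.cos ((t + H / 2) * (lm p - lm (sw q)))) ≤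
      ∑ p ∈ PP M, ∑ q ∈ PP M, (1 / 2 * (|b p| * |b q| * J p q) + 1 / 2 * (|b p| * |b q| * J p (sw q))) := by
    refine sum_le_sum fun p hp => sum_le_sum fun q hq => ?_
    have c1 := corr_le hp hq hT H
    have c2 := corr_le hp (sw_mem hq) hT H
    set I1 := ∫ t in (0:ℝ)..T, Real.cos ((t + H / 2) * (lm p - lm q))
    set I2 := ∫ t in (0:ℝ)..T, Real.cos ((t + H / 2) * (lm p - lm (sw q)))
    calc b p * b q * (1 / 2 * I1 + 1 / 2 * I2) ≤ |b p * b q * (1 / 2 * I1 + 1 / 2 * I2)| := le_abs_self _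
      _ = |b p| * |b q| * |1 / 2 * I1 + 1 / 2 * I2| := by rw [abs_mul, abs_mul]
      _ ≤ |b p| * |b q| * (1 / 2 * J p q + 1 / 2 * J p (sw q)) := by
          refine mul_le_mul_of_nonneg_left ?_ (by positivity)
          refine (abs_add_le _ _).trans ?_
          rw [abs_mul, abs_mul, abs_of_pos (by norm_num : (0:ℝ) < 1 / 2)]
          exact add_le_add (mul_le_mul_of_nonneg_left c1 (by norm_num)) (mul_le_mul_of_nonneg_left c2 (by norm_num))
      _ = _ := by ring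
  have s2 : ∀ p ∈ PP M, ∑ q ∈ PP M, |b p| * |b q| * J p (sw q) = ∑ q ∈ PP M, |b p| * |b q| * J p q := by
    intro p _
    refine sum_nbij' sw sw (fun q hq => sw_mem hq) (fun q hq => sw_mem hq) (fun q _ => rfl) (fun q _ => rfl) ?_
    intro q _
    rw [hbsw]
  have s3 : ∑ p ∈ PP M, ∑ q ∈ PP M, (1 / 2 * (|b p| * |b q| * J p q) + 1 / 2 * (|b p| * |b q| * J p (sw q))) =
      ∑ p ∈ PP M, ∑ q ∈ PP M, |b p| * |b q| * J p q := by
    refine sum_congr rfl fun p hp => ?_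
    rw [sum_add_distrib, ← mul_sum, ← mul_sum, s2 p hp]
    ring
  rw [s3] at s1
  refine s1.trans ?_
  have s4 : ∑ p ∈ PP M, ∑ q ∈ PP M, |b p| * |b q| * J p q =
      (∑ p ∈ PP M, ∑ q ∈ PP M, |b p| * |b q| * (if p.1 * q.2 = q.1 * p.2 then T else 0)) +
      2 * (M:ℝ) ^ 2 * (∑ p ∈ PP M, |b p|) ^ 2 := by
    rw [sq (∑ p ∈ PP M, |b p|), sum_mul_sum, mul_sum, ← sum_add_distrib]
    refine sum_congr rfl fun p _ => ?_
    rw [mul_sum, ← sum_add_distrib]
    refine sum_congr rfl fun q _ => ?_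
    simp only [hJ]
    ring
  rw [s4]
  have s5 : ∑ p ∈ PP M, |b p| ≤ (∑ n ∈ Icc 1 M, a n) ^ 2 := by
    rw [sq, sum_mul_sum, ← sum_product' (f := fun m n => a m * a n)]
    unfold PP
    refine le_trans (sum_le_sum (g := fun p : ℕ × ℕ => a p.1 * a p.2) fun p _ => ?_)
      (sum_le_sum_of_subset_of_nonneg (filter_subset _ _) fun p _ _ => mul_nonneg (ha0 _) (ha0 _))
    simp only [hb]
    rw [abs_mul, abs_of_nonneg (mul_nonneg (ha0 _) (ha0 _))]
    exact mul_le_of_le_one_right (mul_nonneg (ha0 _) (ha0 _)) (kp_le_one H p)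
  have s6 : (∑ p ∈ PP M, |b p|) ^ 2 ≤ (∑ n ∈ Icc 1 M, a n) ^ 4 := by
    have := pow_le_pow_left₀ (sum_nonneg fun p _ => abs_nonneg _) s5 2
    rw [← pow_mul] at this
    exact this
  have s7 : ∑ p ∈ PP M, ∑ q ∈ PP M, |b p| * |b q| * (if p.1 * q.2 = q.1 * p.2 then T else 0) ≤
      T * (2 / H) * ∑ x ∈ ((Icc 1 M ×ˢ Icc 1 M) ×ˢ (Icc 1 M ×ˢ Icc 1 M)).filter
      (fun x => x.1.1 ≠ x.1.2 ∧ x.1.1 * x.2.2 = x.2.1 * x.1.2),
      (al k σ x.1.1 * al k σ x.1.2) * (al k σ x.2.1 * al k σ x.2.2) * XX x.1.1 x.1.2 := by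
    have t1 : ∀ p ∈ PP M, ∀ q ∈ PP M, |b p| * |b q| * (if p.1 * q.2 = q.1 * p.2 then T else 0) ≤
        if p.1 * q.2 = q.1 * p.2 then T * (2 / H) * ((al k σ p.1 * al k σ p.2) * (al k σ q.1 * al k σ q.2) * XX p.1 p.2)
        else 0 := by
      intro p hp q hq
      split_ifs with h
      · have r1 : |b p| ≤ (al k σ p.1 * al k σ p.2) * (2 / H * XX p.1 p.2) := by
          simp only [hb]
          rw [abs_mul, abs_of_nonneg (mul_nonneg (ha0 _) (ha0 _))]
          exact mul_le_mul (mul_le_mul (ha1 _) (ha1 _) (ha0 _) (hal0 _)) (kp_le hp hH) (abs_nonneg _)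
            (mul_nonneg (hal0 _) (hal0 _))
        have r2 : |b q| ≤ al k σ q.1 * al k σ q.2 := by
          simp only [hb]
          rw [abs_mul, abs_of_nonneg (mul_nonneg (ha0 _) (ha0 _))]
          refine (mul_le_of_le_one_right (mul_nonneg (ha0 _) (ha0 _)) (kp_le_one H q)).trans ?_
          exact mul_le_mul (ha1 _) (ha1 _) (ha0 _) (hal0 _)
        have hX := XX_nonneg p.1 p.2
        have := hal0 p.1
        have := hal0 p.2
        calc |b p| * |b q| * T ≤ ((al k σ p.1 * al k σ p.2) * (2 / H * XX p.1 p.2)) * (al k σ q.1 * al k σ q.2) * T := by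
              gcongr
          _ = _ := by ring
      · rw [mul_zero]
    refine (sum_le_sum fun p hp => sum_le_sum fun q hq => t1 p hp q hq).trans ?_
    rw [← sum_product' (f := fun p q : ℕ × ℕ => if p.1 * q.2 = q.1 * p.2 then
      T * (2 / H) * ((al k σ p.1 * al k σ p.2) * (al k σ q.1 * al k σ q.2) * XX p.1 p.2) else 0), ← sum_filter, mul_sum]
    refine sum_le_sum_of_subset_of_nonneg ?_ fun x _ _ => ?_
    · intro x hx
      rw [mem_filter, mem_product] at hx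
      obtain ⟨⟨h1, h2⟩, h3⟩ := hx
      unfold PP at h1 h2
      rw [mem_filter] at h1 h2
      rw [mem_filter, mem_product]
      exact ⟨⟨h1.1, h2.1⟩, h1.2, h3⟩
    · have hX := XX_nonneg x.1.1 x.1.2
      have := hal0 x.1.1
      have := hal0 x.1.2
      have := hal0 x.2.1
      have := hal0 x.2.2
      positivity
  have s8 := quad hk σ M
  have s9 := pairs_le (k := k) hσ hM
  have hlog : 0 ≤ Real.log M := Real.log_nonneg (by exact_mod_cast hM)
  have hsum0 : 0 ≤ (∑ n ∈ Icc 1 M, al k σ n ^ 2) ^ 2 := by positivity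
  calc _ ≤ T * (2 / H) * ((∑ g ∈ Icc 1 M, al k σ g ^ 2) ^ 2 * (3 * (1 + Real.log M) ^ (k ^ 4 + 1))) +
      2 * (M:ℝ) ^ 2 * (∑ n ∈ Icc 1 M, a n) ^ 4 := by
        refine add_le_add (s7.trans (mul_le_mul_of_nonneg_left (s8.trans ?_) (by positivity)))
          (mul_le_mul_of_nonneg_left s6 (by positivity))
        exact mul_le_mul_of_nonneg_left s9 hsum0
    _ = _ := by ring

end Pool.Agent.J4H26.TI
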